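import Pool.Agent.N579.CR.Defs

/-!
# Graphs whose stable partition has defect at most three
-/

set_option autoImplicit false

namespace Pool.Agent.N579.CR

open Finset Pool.Agent.N579.WL

variable {n : ℕ}

/-- adjacency with truth values -/
noncomputable def ad (G : SimpleGraph (Fin n)) (x y : Fin n) : Bool :=
  @decide (G.Adj x y) (Classical.dec _)

theorem ad_iff {G : SimpleGraph (Fin n)} {x y : Fin n} : ad G x y = true ↔ G.Adj x y := by
  simp [ad]

theorem ad_comm (G : SimpleGraph (Fin n)) (x y : Fin n) : ad G x y = ad G y x := by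
  rw [Bool.eq_iff_iff, ad_iff, ad_iff, G.adj_comm]

theorem ad_self (G : SimpleGraph (Fin n)) (x : Fin n) : ad G x x = false := by
  rw [← Bool.not_eq_true, ad_iff]
  exact fun h => h.ne rfl

theorem ext_ad {G H : SimpleGraph (Fin n)} (h : ∀ x y, ad G x y = ad H x y) : G = H := by
  ext x y
  rw [← ad_iff, h, ad_iff]

theorem dg_sum (G : SimpleGraph (Fin n)) {ρ : Fin n → Fin n} {z : Fin n} (S : Finset (Fin n))
    (hS : ∀ w, ρ w = z ↔ w ∈ S) (x : Fin n) : dg G ρ x z = ∑ w ∈ S, (ad G x w).toNat := by
  classical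
  unfold dg
  rw [Nat.card_eq_fintype_card, Fintype.card_subtype]
  have h1 : ∀ w ∈ S, (ad G x w).toNat = if G.Adj x w then 1 else 0 := by
    intro w _
    by_cases h : G.Adj x w
    · rw [if_pos h, ad_iff.2 h]
      rfl
    · rw [if_neg h]
      have : ad G x w = false := by
        rw [← Bool.not_eq_true, ad_iff]
        exact h
      rw [this]
      rfl
  rw [Finset.sum_congr rfl h1, ← Finset.card_filter]
  congr 1
  ext w
  simp only [mem_filter, mem_univ, true_and, hS]
  exact and_comm

/-- The pattern that is responsible for the failure of colour refinement: three pairs of vertices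
which are not separated by other vertices, and whose elements are matched to each other. -/
structure Trip (G : SimpleGraph (Fin n)) (f : Fin 3 × Bool ↪ Fin n) : Prop where
  out : ∀ i w, (∀ p, f p ≠ w) → ad G (f (i, true)) w = ad G (f (i, false)) w
  mat : ∀ i j, i ≠ j → ∀ b c, ad G (f (i, !b)) (f (j, c)) = !(ad G (f (i, b)) (f (j, c)))

section same

variable {G H : SimpleGraph (Fin n)} {ρ : Fin n → Fin n}

theorem Same.left (h : Same G H ρ) {x y : Fin n} (hxy : ρ x = ρ y) (z : Fin n) :
    dg G ρ x z = dg G ρ y z := (h.eq x y hxy z).trans (h.eq y y rfl z).symm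

theorem Same.right (h : Same G H ρ) {x y : Fin n} (hxy : ρ x = ρ y) (z : Fin n) :
    dg H ρ x z = dg H ρ y z := (h.eq x x rfl z).symm.trans (h.eq x y hxy z)

theorem sing_class {r : Fin n} (hr : r ∈ sing ρ) (w : Fin n) : ρ w = r ↔ w ∈ ({r} : Finset (Fin n)) := by
  rw [mem_sing] at hr
  rw [mem_singleton]
  exact ⟨hr.2 w, fun h => h ▸ hr.1⟩

theorem Same.sing_right (h : Same G H ρ) {x y r : Fin n} (hr : r ∈ sing ρ) (hxy : ρ x = ρ y) :
    ad G x r = ad H y r := by
  have h1 := h.eq x y hxy r
  rw [dg_sum G {r} (sing_class hr), dg_sum H {r} (sing_class hr), Finset.sum_singleton,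
    Finset.sum_singleton] at h1
  revert h1
  generalize ad G x r = a
  generalize ad H y r = b
  revert a b
  decide

theorem Same.sing_left (h : Same G H ρ) {x y r : Fin n} (hr : r ∈ sing ρ) (hxy : ρ x = ρ y) :
    ad G r x = ad H r y := by
  rw [ad_comm G, ad_comm H]
  exact h.sing_right hr hxy

theorem iso_of_perm (σ : Fin n ≃ Fin n) (hσ : ∀ x y, ad G (σ x) (σ y) = ad H x y) :
    Nonempty (G ≃g H) := by
  refine ⟨RelIso.symm ⟨σ, ?_⟩⟩
  intro a b
  rw [← ad_iff, hσ, ad_iff]

end same

/-! ## Classes of size at most two -/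

theorem bits22 : ∀ g1 g2 g3 g4 h1 h2 h3 h4 : Bool,
    g1.toNat + g2.toNat = g3.toNat + g4.toNat → g1.toNat + g3.toNat = g2.toNat + g4.toNat →
    h1.toNat + h2.toNat = h3.toNat + h4.toNat → h1.toNat + h3.toNat = h2.toNat + h4.toNat →
    g1.toNat + g2.toNat = h1.toNat + h2.toNat →
    g2 = xor g1 (xor g1 g3) ∧ g4 = g1 ∧ (xor g1 g3 = false → g1 = h1) ∧
      h3 = xor h1 (xor g1 g3) ∧ h2 = xor h1 (xor g1 g3) := by
  decide

section pairs

variable {G H : SimpleGraph (Fin n)} {ρ : Fin n → Fin n}

theorem exists_inv (hid : ∀ x, ρ (ρ x) = ρ x)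
    (hinj : ∀ u v, ρ u ≠ u → ρ v ≠ v → ρ u = ρ v → u = v) :
    ∃ τ : Fin n → Fin n, (∀ x, τ (τ x) = x) ∧ (∀ x, ρ (τ x) = ρ x) ∧
      ∀ x y, ρ y = ρ x → y = x ∨ y = τ x := by
  classical
  have hex : ∀ x, ∃ y, ρ y = ρ x ∧ ∀ z, ρ z = ρ x → z = x ∨ z = y := by
    intro x
    by_cases hx : ρ x = x
    · by_cases h : ∃ u, ρ u = x ∧ u ≠ x
      · obtain ⟨u, hu, hux⟩ := h
        refine ⟨u, hu.trans hx.symm, fun z hz => ?_⟩
        by_cases hzx : z = x
        · exact Or.inl hzx
        · right
          refine hinj z u ?_ ?_ ?_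
          · rw [hz, hx]
            exact Ne.symm hzx
          · rw [hu]
            exact Ne.symm hux
          · rw [hz, hx, hu]
      · push Not at h
        exact ⟨x, rfl, fun z hz => Or.inl (h z (hz.trans hx))⟩
    · refine ⟨ρ x, hid x, fun z hz => ?_⟩
      by_cases hz' : ρ z = z
      · right
        rw [← hz', hz]
      · left
        exact hinj z x hz' hx hz
  choose τ h1 h2 using hex
  refine ⟨τ, fun x => ?_, h1, h2⟩
  rcases h2 (τ x) x (h1 x).symm with h | h
  · rcases h2 (τ x) (τ (τ x)) (h1 (τ x)) with h3 | h3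
    · rw [h3]
      exact h.symm
    · rcases h2 x (τ (τ x)) ((h1 (τ x)).trans (h1 x)) with h4 | h4
      · exact h4
      · rw [h4]
        exact h.symm
  · exact h.symm

variable {τ : Fin n → Fin n}

theorem class_pair (hρτ : ∀ x, ρ (τ x) = ρ x) (hc : ∀ x y, ρ y = ρ x → y = x ∨ y = τ x) (y w : Fin n) :
    ρ w = ρ y ↔ w ∈ ({y, τ y} : Finset (Fin n)) := by
  rw [mem_insert, mem_singleton]
  constructor
  · exact hc y w
  · rintro (rfl | rfl)
    · rfl
    · exact hρτ y

theorem sing_of_fix (hid : ∀ x, ρ (ρ x) = ρ x) (hc : ∀ x y, ρ y = ρ x → y = x ∨ y = τ x)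
    {y : Fin n} (hy : τ y = y) : y ∈ sing ρ := by
  have h0 : ∀ z, ρ z = ρ y → z = y := by
    intro z hz
    rcases hc y z hz with h1 | h1
    · exact h1
    · rw [h1, hy]
  have h1 : ρ y = y := h0 (ρ y) (hid y)
  rw [mem_sing]
  exact ⟨h1, fun z hz => h0 z (hz.trans h1.symm)⟩

/-- The relations between two different classes. -/
theorem Same.pair (h : Same G H ρ) (hid : ∀ x, ρ (ρ x) = ρ x)
    (hρτ : ∀ x, ρ (τ x) = ρ x) (hc : ∀ x y, ρ y = ρ x → y = x ∨ y = τ x) (x y : Fin n) :
    ad G x (τ y) = xor (ad G x y) (xor (ad G x y) (ad G (τ x) y)) ∧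
      ad G (τ x) (τ y) = ad G x y ∧ (xor (ad G x y) (ad G (τ x) y) = false → ad G x y = ad H x y) ∧
      ad H (τ x) y = xor (ad H x y) (xor (ad G x y) (ad G (τ x) y)) ∧
      ad H x (τ y) = xor (ad H x y) (xor (ad G x y) (ad G (τ x) y)) ∨ ρ x = ρ y := by
  by_cases hxy : ρ x = ρ y
  · exact Or.inr hxy
  left
  by_cases hy : τ y = y
  · have hys := sing_of_fix hid hc hy
    have h1 : ad G (τ x) y = ad H x y := h.sing_right hys (hρτ x)
    have h2 : ad G x y = ad H x y := h.sing_right hys rfl
    have h3 : ad G x y = ad H (τ x) y := h.sing_right hys (hρτ x).symm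
    rw [hy, h1, ← h3, h2]
    simp
  · by_cases hx : τ x = x
    · have hxs := sing_of_fix hid hc hx
      have h1 : ad G x (τ y) = ad H x y := h.sing_left hxs (hρτ y)
      have h2 : ad G x y = ad H x y := h.sing_left hxs rfl
      have h3 : ad G x y = ad H x (τ y) := h.sing_left hxs (hρτ y).symm
      rw [hx, h1, ← h3, h2]
      simp
    · have hcy := class_pair hρτ hc y
      have hcx := class_pair hρτ hc x
      have e : ∀ (K : SimpleGraph (Fin n)) (u : Fin n), dg K ρ u (ρ y) =
          (ad K u y).toNat + (ad K u (τ y)).toNat := by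
        intro K u
        rw [dg_sum K {y, τ y} hcy, Finset.sum_pair (Ne.symm hy)]
      have e' : ∀ (K : SimpleGraph (Fin n)) (u : Fin n), dg K ρ u (ρ x) =
          (ad K x u).toNat + (ad K (τ x) u).toNat := by
        intro K u
        rw [dg_sum K {x, τ x} hcx, Finset.sum_pair (Ne.symm hx), ad_comm K u x, ad_comm K u (τ x)]
      have h1 := h.left (hρτ x).symm (ρ y)
      have h2 := h.left (hρτ y).symm (ρ x)
      have h3 := h.right (hρτ x).symm (ρ y)
      have h4 := h.right (hρτ y).symm (ρ x)
      have h5 := h.eq x x rfl (ρ y)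
      rw [e, e] at h1 h3 h5
      rw [e', e'] at h2 h4
      exact bits22 _ _ _ _ _ _ _ _ h1 h2 h3 h4 h5

/-- the vertices of the nontrivial classes when there are few -/
theorem exists_three (hn : 7 ≤ n) (hd : defect ρ ≤ 3)
    (hinj : ∀ u v, ρ u ≠ u → ρ v ≠ v → ρ u = ρ v → u = v) :
    ∃ v : Fin 3 → Fin n, (∀ i j, ρ (v i) = ρ (v j) → i = j) ∧ ∀ x, ρ x ≠ x → ∃ i, x = v i := by
  classical
  let M : Finset (Fin n) := univ.filter fun x => ρ x ≠ x
  have hM : M.card ≤ 3 := hd
  have hdisj : Disjoint M (sing ρ) := by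
    rw [Finset.disjoint_left]
    intro x hx hs
    exact (mem_filter.1 hx).2 (mem_sing.1 hs).1
  have hbig : 3 ≤ (M ∪ sing ρ).card := by
    rw [Finset.card_union_of_disjoint hdisj]
    have := card_sing ρ
    have hMd : M.card = defect ρ := rfl
    omega
  obtain ⟨M', h1, h2, h3⟩ := Finset.exists_subsuperset_card_eq (Finset.subset_union_left) hM hbig
  let e := M'.equivFinOfCardEq h3
  have hne : ∀ x ∈ M', ∀ y ∈ M', ρ x = ρ y → x = y := by
    intro x hx y hy hxy
    rcases Finset.mem_union.1 (h2 hx) with h4 | h4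
    · rcases Finset.mem_union.1 (h2 hy) with h5 | h5
      · exact hinj x y (mem_filter.1 h4).2 (mem_filter.1 h5).2 hxy
      · have h6 := mem_sing.1 h5
        exact h6.2 x (hxy.trans h6.1)
    · have h6 := mem_sing.1 h4
      exact (h6.2 y (hxy.symm.trans h6.1)).symm
  refine ⟨fun i => (e.symm i : Fin n), fun i j hij => ?_, fun x hx => ?_⟩
  · have := hne _ (e.symm i).2 _ (e.symm j).2 hij
    exact e.symm.injective (Subtype.ext this)
  · have hx' : x ∈ M' := h1 (mem_filter.2 ⟨mem_univ _, hx⟩)
    exact ⟨e ⟨x, hx'⟩, by simp⟩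

theorem third : ∀ i j : Fin 3, i ≠ j → ∃ l : Fin 3, l ≠ i ∧ l ≠ j ∧ ∀ m, m = i ∨ m = j ∨ m = l := by
  decide

/-- **Classes of size at most two.** -/
theorem iso_pairs (hn : 7 ≤ n) (h : Same G H ρ) (hid : ∀ x, ρ (ρ x) = ρ x) (hd : defect ρ ≤ 3)
    (hinj : ∀ u v, ρ u ≠ u → ρ v ≠ v → ρ u = ρ v → u = v) :
    Nonempty (G ≃g H) ∨ ∃ f, Trip G f := by
  classical
  obtain ⟨τ, hτ, hρτ, hc⟩ := exists_inv hid hinj
  obtain ⟨v, hv1, hv2⟩ := exists_three hn hd hinj
  have hpair : ∀ x y, ρ x ≠ ρ y → _ := fun x y hxy => (h.pair hid hρτ hc x y).resolve_right hxy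
  -- the matching indicator and the difference
  let μ : Fin n → Fin n → Bool := fun x y => xor (ad G x y) (ad G (τ x) y)
  let δ : Fin n → Fin n → Bool := fun x y => xor (ad G x y) (ad H x y)
  have p1 : ∀ x y, ρ x ≠ ρ y → ad G x (τ y) = xor (ad G x y) (μ x y) := fun x y hxy =>
    (hpair x y hxy).1
  have p2 : ∀ x y, ρ x ≠ ρ y → ad G (τ x) (τ y) = ad G x y := fun x y hxy => (hpair x y hxy).2.1
  have p3 : ∀ x y, ρ x ≠ ρ y → μ x y = false → δ x y = false := by
    intro x y hxy hm
    have := (hpair x y hxy).2.2.1 hm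
    show xor _ _ = _
    rw [this, Bool.xor_self]
  have p4 : ∀ x y, ρ x ≠ ρ y → ad H (τ x) y = xor (ad H x y) (μ x y) := fun x y hxy =>
    (hpair x y hxy).2.2.2.1
  have p5 : ∀ x y, ρ x ≠ ρ y → ad H x (τ y) = xor (ad H x y) (μ x y) := fun x y hxy =>
    (hpair x y hxy).2.2.2.2
  have p6 : ∀ x y, ad G (τ x) y = xor (ad G x y) (μ x y) := by
    intro x y
    show _ = xor (ad G x y) (xor (ad G x y) (ad G (τ x) y))
    rw [← Bool.xor_assoc, Bool.xor_self, Bool.false_xor]
  have hμs : ∀ x y, ρ x ≠ ρ y → μ x y = μ y x := by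
    intro x y hxy
    show _ = xor (ad G y x) (ad G (τ y) x)
    rw [ad_comm G y x, ad_comm G (τ y) x, p1 x y hxy, ← Bool.xor_assoc, Bool.xor_self,
      Bool.false_xor]
  have hδs : ∀ x y, δ x y = δ y x := by
    intro x y
    show xor _ _ = xor _ _
    rw [ad_comm G x y, ad_comm H x y]
  have hμ1 : ∀ x y, ρ x ≠ ρ y → μ (τ x) y = μ x y := by
    intro x y _
    show xor (ad G (τ x) y) (ad G (τ (τ x)) y) = xor (ad G x y) (ad G (τ x) y)
    rw [hτ, Bool.xor_comm]
  have hμ2 : ∀ x y, ρ x ≠ ρ y → μ x (τ y) = μ x y := by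
    intro x y hxy
    rw [hμs x (τ y) (by rwa [hρτ]), hμ1 y x (Ne.symm hxy), hμs y x (Ne.symm hxy)]
  have hδ1 : ∀ x y, ρ x ≠ ρ y → δ (τ x) y = δ x y := by
    intro x y hxy
    show xor (ad G (τ x) y) (ad H (τ x) y) = xor (ad G x y) (ad H x y)
    rw [p6, p4 x y hxy]
    generalize ad G x y = a
    generalize ad H x y = b
    generalize μ x y = c
    revert a b c
    decide
  have hδ2 : ∀ x y, ρ x ≠ ρ y → δ x (τ y) = δ x y := by
    intro x y hxy
    rw [hδs, hδ1 y x (Ne.symm hxy), hδs]
  have hμc : ∀ x y x' y', ρ x ≠ ρ y → ρ x' = ρ x → ρ y' = ρ y → μ x' y' = μ x y := by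
    intro x y x' y' hxy hx hy
    rcases hc x x' hx with rfl | rfl <;> rcases hc y y' hy with rfl | rfl
    · rfl
    · exact hμ2 _ _ hxy
    · exact hμ1 _ _ hxy
    · rw [hμ1 x (τ y) (by rwa [hρτ]), hμ2 _ _ hxy]
  have hδc : ∀ x y x' y', ρ x ≠ ρ y → ρ x' = ρ x → ρ y' = ρ y → δ x' y' = δ x y := by
    intro x y x' y' hxy hx hy
    rcases hc x x' hx with rfl | rfl <;> rcases hc y y' hy with rfl | rfl
    · rfl
    · exact hδ2 _ _ hxy
    · exact hδ1 _ _ hxy
    · rw [hδ1 x (τ y) (by rwa [hρτ]), hδ2 _ _ hxy]
  have hcov : ∀ x, τ x ≠ x → ∃ i, ρ x = ρ (v i) := by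
    intro x hx
    by_cases h1 : ρ x = x
    · have h2 : ρ (τ x) ≠ τ x := by
        rw [hρτ, h1]
        exact Ne.symm hx
      obtain ⟨i, hi⟩ := hv2 _ h2
      exact ⟨i, by rw [← hi, hρτ]⟩
    · obtain ⟨i, hi⟩ := hv2 x h1
      exact ⟨i, by rw [← hi]⟩
  have hμt : ∀ x y, ρ x ≠ ρ y → μ x y = true → τ x ≠ x ∧ τ y ≠ y := by
    intro x y hxy hm
    constructor
    · intro h1
      have : μ x y = false := by
        show xor (ad G x y) (ad G (τ x) y) = false
        rw [h1, Bool.xor_self]
      rw [this] at hm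
      exact absurd hm (by decide)
    · intro h1
      rw [hμs x y hxy] at hm
      have : μ y x = false := by
        show xor (ad G y x) (ad G (τ y) x) = false
        rw [h1, Bool.xor_self]
      rw [this] at hm
      exact absurd hm (by decide)
  by_cases hall : ∀ i j, i ≠ j → μ (v i) (v j) = true
  · right
    have hvτ : ∀ i, τ (v i) ≠ v i := by
      intro i
      obtain ⟨j, hj⟩ : ∃ j : Fin 3, i ≠ j := by
        revert i
        decide
      exact (hμt (v i) (v j) (fun h1 => hj (hv1 i j h1)) (hall i j hj)).1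
    let f0 : Fin 3 × Bool → Fin n := fun p => if p.2 then τ (v p.1) else v p.1
    have hf0ρ : ∀ p, ρ (f0 p) = ρ (v p.1) := by
      rintro ⟨i, b⟩
      cases b
      · rfl
      · exact hρτ _
    have hf0 : Function.Injective f0 := by
      rintro ⟨i, b⟩ ⟨j, c⟩ hij
      have h1 : i = j := hv1 i j (by rw [← hf0ρ (i, b), ← hf0ρ (j, c), hij])
      subst h1
      cases b <;> cases c
      · rfl
      · exact absurd hij.symm (hvτ i)
      · exact absurd hij (hvτ i)
      · rfl
    refine ⟨⟨f0, hf0⟩, ?_, ?_⟩
    · intro i w hw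
      show ad G (τ (v i)) w = ad G (v i) w
      have hwi : ∀ j, ρ (v j) ≠ ρ w := by
        intro j h1
        rcases hc (v j) w h1.symm with h2 | h2
        · exact hw (j, false) h2.symm
        · exact hw (j, true) h2.symm
      have h1 : μ (v i) w = false := by
        rw [← Bool.not_eq_true]
        intro h2
        obtain ⟨j, hj⟩ := hcov w (hμt _ _ (hwi i) h2).2
        exact hwi j hj.symm
      rw [p6, h1, Bool.xor_false]
    · intro i j hij b c
      have h1 : ρ (f0 (i, b)) ≠ ρ (f0 (j, c)) := by
        rw [hf0ρ, hf0ρ]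
        exact fun h2 => hij (hv1 i j h2)
      have h2 : f0 (i, !b) = τ (f0 (i, b)) := by
        cases b
        · rfl
        · exact (hτ _).symm
      show ad G (f0 (i, !b)) (f0 (j, c)) = !(ad G (f0 (i, b)) (f0 (j, c)))
      rw [h2, p6]
      have h3 : μ (f0 (i, b)) (f0 (j, c)) = true := by
        rw [hμc (v i) (v j) _ _ (fun h2 => hij (hv1 i j h2)) (hf0ρ _) (hf0ρ _)]
        exact hall i j hij
      rw [h3, Bool.xor_true]
  · left
    push Not at hall
    obtain ⟨i, j, hij, hμij⟩ := hall
    rw [ne_eq, Bool.not_eq_true] at hμij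
    obtain ⟨l, hli, hlj, hcase⟩ := third i j hij
    have hρij : ρ (v i) ≠ ρ (v j) := fun h1 => hij (hv1 _ _ h1)
    have hρil : ρ (v i) ≠ ρ (v l) := fun h1 => hli (hv1 _ _ h1).symm
    have hρjl : ρ (v j) ≠ ρ (v l) := fun h1 => hlj (hv1 _ _ h1).symm
    let s : Fin n → Bool := fun x =>
      if ρ x = ρ (v i) then δ (v i) (v l) else if ρ x = ρ (v j) then δ (v j) (v l) else false
    have hsc : ∀ x y, ρ x = ρ y → s x = s y := by
      intro x y hxy
      show (if ρ x = _ then _ else if ρ x = _ then _ else _) =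
        (if ρ y = _ then _ else if ρ y = _ then _ else _)
      rw [hxy]
    let σ0 : Fin n → Fin n := fun x => if s x then τ x else x
    have hσ0 : Function.Involutive σ0 := by
      intro x
      by_cases hx : s x = true
      · have h1 : σ0 x = τ x := if_pos hx
        have h2 : s (τ x) = true := (hsc _ _ (hρτ x)).trans hx
        rw [h1]
        show (if s (τ x) then τ (τ x) else τ x) = x
        rw [if_pos h2, hτ]
      · have h1 : σ0 x = x := if_neg hx
        rw [h1, h1]
    refine iso_of_perm (hσ0.toPerm σ0) ?_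
    intro x y
    show ad G (σ0 x) (σ0 y) = ad H x y
    by_cases hxy : ρ x = ρ y
    · -- the same class
      rcases hc x y hxy.symm with rfl | rfl
      · rw [ad_self, ad_self]
      · have h0 : s (τ x) = s x := hsc _ _ (hρτ x)
        have h1 : ad G (σ0 x) (σ0 (τ x)) = ad G x (τ x) := by
          by_cases hx : s x = true
          · have h2 : σ0 x = τ x := if_pos hx
            have h3 : σ0 (τ x) = x := by
              show (if s (τ x) then τ (τ x) else τ x) = x
              rw [h0, if_pos hx, hτ]
            rw [h2, h3, ad_comm]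
          · have h2 : σ0 x = x := if_neg hx
            have h3 : σ0 (τ x) = τ x := by
              show (if s (τ x) then τ (τ x) else τ x) = τ x
              rw [h0, if_neg hx]
            rw [h2, h3]
        rw [h1]
        by_cases hx : τ x = x
        · rw [hx, ad_self, ad_self]
        · have h2 := h.eq x x rfl (ρ x)
          rw [dg_sum G {x, τ x} (class_pair hρτ hc x), dg_sum H {x, τ x} (class_pair hρτ hc x),
            Finset.sum_pair (Ne.symm hx), Finset.sum_pair (Ne.symm hx), ad_self, ad_self] at h2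
          revert h2
          generalize ad G x (τ x) = a
          generalize ad H x (τ x) = b
          revert a b
          decide
    · have h1 : ad G (σ0 x) (σ0 y) = xor (ad G x y) (μ x y && xor (s x) (s y)) := by
        by_cases hx : s x = true
        · have h2 : σ0 x = τ x := if_pos hx
          by_cases hy : s y = true
          · have h3 : σ0 y = τ y := if_pos hy
            rw [h2, h3, p2 x y hxy, hx, hy]
            simp
          · have h3 : σ0 y = y := if_neg hy
            rw [Bool.not_eq_true] at hy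
            rw [h2, h3, p6, hx, hy]
            simp
        · have h2 : σ0 x = x := if_neg hx
          rw [Bool.not_eq_true] at hx
          by_cases hy : s y = true
          · have h3 : σ0 y = τ y := if_pos hy
            rw [h2, h3, p1 x y hxy, hx, hy]
            simp
          · have h3 : σ0 y = y := if_neg hy
            rw [Bool.not_eq_true] at hy
            rw [h2, h3, hx, hy]
            simp
      rw [h1]
      have h2 : δ x y = (μ x y && xor (s x) (s y)) := by
        by_cases hm : μ x y = true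
        · obtain ⟨hx, hy⟩ := hμt x y hxy hm
          obtain ⟨a, ha⟩ := hcov x hx
          obtain ⟨b, hb⟩ := hcov y hy
          have hμab : μ (v a) (v b) = true := by
            rw [← hμc (v a) (v b) x y (by rw [← ha, ← hb]; exact hxy) ha hb]
            exact hm
          have hδab : δ x y = δ (v a) (v b) :=
            hδc (v a) (v b) x y (by rw [← ha, ← hb]; exact hxy) ha hb
          rw [hm, hδab, Bool.true_and, hsc x _ ha, hsc y _ hb]
          have hab : a ≠ b := by
            rintro rfl
            exact hxy (ha.trans hb.symm)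
          have hsi : s (v i) = δ (v i) (v l) := if_pos rfl
          have hsj : s (v j) = δ (v j) (v l) := by
            show (if _ then _ else if _ then _ else _) = _
            rw [if_neg (Ne.symm hρij), if_pos rfl]
          have hsl : s (v l) = false := by
            show (if _ then _ else if _ then _ else _) = _
            rw [if_neg (Ne.symm hρil), if_neg (Ne.symm hρjl)]
          have hμji : μ (v j) (v i) = false := (hμs _ _ hρij).symm.trans hμij
          rcases hcase a with rfl | rfl | rfl <;> rcases hcase b with rfl | rfl | rfl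
          · exact absurd rfl hab
          · rw [hμij] at hμab
            exact absurd hμab (by decide)
          · rw [hsi, hsl, Bool.xor_false]
          · rw [hμji] at hμab
            exact absurd hμab (by decide)
          · exact absurd rfl hab
          · rw [hsj, hsl, Bool.xor_false]
          · rw [hsi, hsl, Bool.false_xor, hδs]
          · rw [hsj, hsl, Bool.false_xor, hδs]
          · exact absurd rfl hab
        · rw [Bool.not_eq_true] at hm
          rw [hm, p3 x y hxy hm, Bool.false_and]
      rw [← h2]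
      show xor (ad G x y) (xor (ad G x y) (ad H x y)) = _
      rw [← Bool.xor_assoc, Bool.xor_self, Bool.false_xor]

end pairs

/-! ## Larger classes -/

theorem bits3 : ∀ e1 e2 e3 f1 f2 f3 : Bool,
    e1.toNat + e2.toNat = e1.toNat + e3.toNat → e1.toNat + e3.toNat = e2.toNat + e3.toNat →
    f1.toNat + f2.toNat = f1.toNat + f3.toNat → f1.toNat + f3.toNat = f2.toNat + f3.toNat →
    e1.toNat + e2.toNat = f1.toNat + f2.toNat → e1 = f1 ∧ e2 = f2 ∧ e3 = f3 := by
  decide

theorem bits32 : ∀ a1 a2 b1 b2 c1 c2 : Bool,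
    a1.toNat + a2.toNat = b1.toNat + b2.toNat → b1.toNat + b2.toNat = c1.toNat + c2.toNat →
    a1.toNat + (b1.toNat + c1.toNat) = a2.toNat + (b2.toNat + c2.toNat) →
    a2 = a1 ∧ b1 = a1 ∧ b2 = a1 ∧ c1 = a1 ∧ c2 = a1 := by
  decide

theorem bits4 : ∀ ru rv rw uv uw vw : Bool,
    ru.toNat + (rv.toNat + rw.toNat) = ru.toNat + (uv.toNat + uw.toNat) →
    ru.toNat + (uv.toNat + uw.toNat) = rv.toNat + (uv.toNat + vw.toNat) →
    rv.toNat + (uv.toNat + vw.toNat) = rw.toNat + (uw.toNat + vw.toNat) →
    vw = ru ∧ uw = rv ∧ uv = rw := by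
  decide

theorem bits_sel : ∀ a b c a' b' c' : Bool,
    a.toNat + (b.toNat + c.toNat) = a'.toNat + (b'.toNat + c'.toNat) →
    (a' = a ∧ b' = b ∧ c' = c) ∨ (a' = b ∧ b' = a ∧ c' = c) ∨ (a' = c ∧ b' = b ∧ c' = a) ∨
      (a' = a ∧ b' = c ∧ c' = b) := by
  decide

section large

variable {G H : SimpleGraph (Fin n)} {ρ : Fin n → Fin n}

theorem triple_same (h : Same G H ρ) {r u v : Fin n} (hru : r ≠ u) (hrv : r ≠ v) (huv : u ≠ v)
    (hS : ∀ w, ρ w = r ↔ w ∈ ({r, u, v} : Finset (Fin n))) (x y : Fin n) (hx : ρ x = r)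
    (hy : ρ y = r) : ad G x y = ad H x y := by
  have e : ∀ (K : SimpleGraph (Fin n)) (x : Fin n), dg K ρ x r =
      (ad K x r).toNat + ((ad K x u).toNat + (ad K x v).toNat) := by
    intro K x
    rw [dg_sum K {r, u, v} hS, Finset.sum_insert (by simp [hru, hrv]), Finset.sum_pair huv]
  have hr : ρ r = r := (hS r).2 (by simp)
  have hu : ρ u = r := (hS u).2 (by simp)
  have hv : ρ v = r := (hS v).2 (by simp)
  have h1 := h.left (hr.trans hu.symm) r
  have h2 := h.left (hu.trans hv.symm) r
  have h3 := h.right (hr.trans hu.symm) r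
  have h4 := h.right (hu.trans hv.symm) r
  have h5 := h.eq r r rfl r
  rw [e, e] at h1 h2 h3 h4 h5
  rw [ad_self, ad_self, ad_comm _ u r] at h1 h3
  rw [ad_self, ad_self, ad_comm _ u r, ad_comm _ v r, ad_comm _ v u] at h2 h4
  rw [ad_self, ad_self] at h5
  obtain ⟨k1, k2, k3⟩ := bits3 (ad G r u) (ad G r v) (ad G u v) (ad H r u) (ad H r v) (ad H u v)
    (by simpa using h1) (by simpa using h2) (by simpa using h3) (by simpa using h4)
    (by simpa using h5)
  have hx' := (hS x).1 hx
  have hy' := (hS y).1 hy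
  simp only [mem_insert, mem_singleton] at hx' hy'
  rcases hx' with rfl | rfl | rfl <;> rcases hy' with rfl | rfl | rfl <;>
    first
      | rw [ad_self, ad_self]
      | assumption
      | (rw [ad_comm G, ad_comm H]; assumption)

theorem pair_same (h : Same G H ρ) {s w : Fin n} (hsw : s ≠ w)
    (hS : ∀ z, ρ z = s ↔ z ∈ ({s, w} : Finset (Fin n))) (x y : Fin n) (hx : ρ x = s)
    (hy : ρ y = s) : ad G x y = ad H x y := by
  have h5 := h.eq s s rfl s
  rw [dg_sum G {s, w} hS, dg_sum H {s, w} hS, Finset.sum_pair hsw, Finset.sum_pair hsw, ad_self,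
    ad_self] at h5
  have k1 : ad G s w = ad H s w := by
    revert h5
    generalize ad G s w = a
    generalize ad H s w = b
    revert a b
    decide
  have hx' := (hS x).1 hx
  have hy' := (hS y).1 hy
  simp only [mem_insert, mem_singleton] at hx' hy'
  rcases hx' with rfl | rfl <;> rcases hy' with rfl | rfl <;>
    first
      | rw [ad_self, ad_self]
      | assumption
      | (rw [ad_comm G, ad_comm H]; assumption)

theorem triple_pair_same (h : Same G H ρ) {r u v s w : Fin n} (hru : r ≠ u) (hrv : r ≠ v)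
    (huv : u ≠ v) (hsw : s ≠ w) (hS : ∀ w, ρ w = r ↔ w ∈ ({r, u, v} : Finset (Fin n)))
    (hS' : ∀ z, ρ z = s ↔ z ∈ ({s, w} : Finset (Fin n))) (x y : Fin n) (hx : ρ x = r)
    (hy : ρ y = s) : ad G x y = ad H x y := by
  have e : ∀ (K : SimpleGraph (Fin n)) (x : Fin n), dg K ρ x r =
      (ad K r x).toNat + ((ad K u x).toNat + (ad K v x).toNat) := by
    intro K x
    rw [dg_sum K {r, u, v} hS, Finset.sum_insert (by simp [hru, hrv]), Finset.sum_pair huv,
      ad_comm K x r, ad_comm K x u, ad_comm K x v]
  have e' : ∀ (K : SimpleGraph (Fin n)) (x : Fin n), dg K ρ x s =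
      (ad K x s).toNat + (ad K x w).toNat := by
    intro K x
    rw [dg_sum K {s, w} hS', Finset.sum_pair hsw]
  have hr : ρ r = r := (hS r).2 (by simp)
  have hu : ρ u = r := (hS u).2 (by simp)
  have hv : ρ v = r := (hS v).2 (by simp)
  have hs : ρ s = s := (hS' s).2 (by simp)
  have hw : ρ w = s := (hS' w).2 (by simp)
  have h1 := h.left (hr.trans hu.symm) s
  have h2 := h.left (hu.trans hv.symm) s
  have h3 := h.left (hs.trans hw.symm) r
  have h4 := h.right (hr.trans hu.symm) s
  have h5 := h.right (hu.trans hv.symm) s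
  have h6 := h.right (hs.trans hw.symm) r
  have h7 := h.eq r r rfl s
  rw [e', e'] at h1 h2 h4 h5 h7
  rw [e, e] at h3 h6
  obtain ⟨a1, a2, a3, a4, a5⟩ := bits32 _ _ _ _ _ _ h1 h2 h3
  obtain ⟨b1, b2, b3, b4, b5⟩ := bits32 _ _ _ _ _ _ h4 h5 h6
  rw [a1, b1] at h7
  have k1 : ad G r s = ad H r s := by
    revert h7
    generalize ad G r s = a
    generalize ad H r s = b
    revert a b
    decide
  have hx' := (hS x).1 hx
  have hy' := (hS' y).1 hy
  simp only [mem_insert, mem_singleton] at hx' hy'
  rcases hx' with rfl | rfl | rfl <;> rcases hy' with rfl | rfl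
  · exact k1
  · rw [a1, b1, k1]
  · rw [a2, b2, k1]
  · rw [a3, b3, k1]
  · rw [a4, b4, k1]
  · rw [a5, b5, k1]

theorem quad_same (h : Same G H ρ) {r u v w : Fin n} (hru : r ≠ u) (hrv : r ≠ v) (hrw : r ≠ w)
    (huv : u ≠ v) (huw : u ≠ w) (hvw : v ≠ w)
    (hS : ∀ z, ρ z = r ↔ z ∈ ({r, u, v, w} : Finset (Fin n)))
    (h1 : ad H r u = ad G r u) (h2 : ad H r v = ad G r v) (h3 : ad H r w = ad G r w)
    (x y : Fin n) (hx : ρ x = r) (hy : ρ y = r) : ad G x y = ad H x y := by
  have e : ∀ (K : SimpleGraph (Fin n)) (x : Fin n), dg K ρ x r =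
      (ad K x r).toNat + ((ad K x u).toNat + ((ad K x v).toNat + (ad K x w).toNat)) := by
    intro K x
    rw [dg_sum K {r, u, v, w} hS, Finset.sum_insert (by simp [hru, hrv, hrw]),
      Finset.sum_insert (by simp [huv, huw]), Finset.sum_pair hvw]
  have hr : ρ r = r := (hS r).2 (by simp)
  have hu : ρ u = r := (hS u).2 (by simp)
  have hv : ρ v = r := (hS v).2 (by simp)
  have hw : ρ w = r := (hS w).2 (by simp)
  have key : ∀ K : SimpleGraph (Fin n), (∀ x y, ρ x = ρ y → dg K ρ x r = dg K ρ y r) →
      ad K v w = ad K r u ∧ ad K u w = ad K r v ∧ ad K u v = ad K r w := by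
    intro K hK
    have g1 := hK r u (hr.trans hu.symm)
    have g2 := hK u v (hu.trans hv.symm)
    have g3 := hK v w (hv.trans hw.symm)
    rw [e, e, ad_self, ad_self, ad_comm K u r] at g1
    rw [e, e, ad_self, ad_self, ad_comm K u r, ad_comm K v r, ad_comm K v u] at g2
    rw [e, e, ad_self, ad_self, ad_comm K v r, ad_comm K w r, ad_comm K v u, ad_comm K w u,
      ad_comm K w v] at g3
    exact bits4 (ad K r u) (ad K r v) (ad K r w) (ad K u v) (ad K u w) (ad K v w)
      (by simpa using g1) (by simpa using g2) (by simpa using g3)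
  obtain ⟨a1, a2, a3⟩ := key G fun x y hxy => h.left hxy r
  obtain ⟨b1, b2, b3⟩ := key H fun x y hxy => h.right hxy r
  have c1 : ad G v w = ad H v w := by rw [a1, b1, h1]
  have c2 : ad G u w = ad H u w := by rw [a2, b2, h2]
  have c3 : ad G u v = ad H u v := by rw [a3, b3, h3]
  have d1 := h1.symm
  have d2 := h2.symm
  have d3 := h3.symm
  have hx' := (hS x).1 hx
  have hy' := (hS y).1 hy
  simp only [mem_insert, mem_singleton] at hx' hy'
  rcases hx' with rfl | rfl | rfl | rfl <;> rcases hy' with rfl | rfl | rfl | rfl <;>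
    first
      | rw [ad_self, ad_self]
      | assumption
      | (rw [ad_comm G, ad_comm H]; assumption)

theorem Same.comap (h : Same G H ρ) (σ : Fin n ≃ Fin n) (hσ : ∀ x, ρ (σ x) = ρ x) :
    Same (G.comap σ) H ρ := by
  refine ⟨fun x y hxy z => ?_⟩
  rw [← h.eq (σ x) y ((hσ x).trans hxy) z]
  unfold dg
  refine Nat.card_congr (σ.subtypeEquiv fun w => ?_)
  rw [hσ w]
  exact Iff.rfl

/-- **Classification**: if the defect is at most three and colour refinement does not identify the
graph then there is the bad pattern. -/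
theorem classify (hn : 7 ≤ n) (h : Same G H ρ) (hid : ∀ x, ρ (ρ x) = ρ x) (hd : defect ρ ≤ 3) :
    Nonempty (G ≃g H) ∨ ∃ f, Trip G f := by
  classical
  by_cases hinj : ∀ u v, ρ u ≠ u → ρ v ≠ v → ρ u = ρ v → u = v
  · exact iso_pairs hn h hid hd hinj
  left
  push Not at hinj
  obtain ⟨u, v, hu, hv, huv', huv⟩ := hinj
  obtain ⟨r, hr⟩ : ∃ r, r = ρ u := ⟨_, rfl⟩
  have hρu : ρ u = r := hr.symm
  have hρv : ρ v = r := huv'.symm.trans hρu
  have hρr : ρ r = r := by rw [hr, hid]
  have hru : r ≠ u := by
    rw [hr]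
    exact hu
  have hrv : r ≠ v := by
    rw [← hρv]
    exact hv
  have hsing : ∀ x, ρ x = x → (∀ y, ρ y ≠ y → ρ y ≠ x) → x ∈ sing ρ := by
    intro x hx hall
    rw [mem_sing]
    refine ⟨hx, fun y hy => ?_⟩
    by_contra hne
    exact hall y (by rw [hy]; exact Ne.symm hne) hy
  have hlr : ∀ x y, x ∈ sing ρ ∨ y ∈ sing ρ → ad G x y = ad H x y := by
    rintro x y (h1 | h1)
    · exact h.sing_left h1 rfl
    · exact h.sing_right h1 rfl
  by_cases h3 : ∃ w, ρ w ≠ w ∧ w ≠ u ∧ w ≠ v
  · obtain ⟨w, hw, hwu, hwv⟩ := h3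
    have hM : ∀ x, ρ x ≠ x → x = u ∨ x = v ∨ x = w := by
      intro x hx
      by_contra hcon
      push Not at hcon
      have h4 : ({x, u, v, w} : Finset (Fin n)) ⊆ univ.filter fun x => ρ x ≠ x := by
        intro y hy
        simp only [mem_insert, mem_singleton] at hy
        simp only [mem_filter, mem_univ, true_and]
        rcases hy with rfl | rfl | rfl | rfl <;> assumption
      have h5 := Finset.card_le_card h4
      have h6 : ({x, u, v, w} : Finset (Fin n)).card = 4 := by
        rw [Finset.card_insert_of_notMem (by simp [hcon.1, hcon.2.1, hcon.2.2]),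
          Finset.card_insert_of_notMem (by simp [huv, hwu.symm]), Finset.card_pair hwv.symm]
      have h7 : (univ.filter fun x => ρ x ≠ x).card = defect ρ := rfl
      omega
    by_cases hwr : ρ w = r
    · -- one class with four elements
      have hrw : r ≠ w := by
        rw [← hwr]
        exact hw
      have hS : ∀ z, ρ z = r ↔ z ∈ ({r, u, v, w} : Finset (Fin n)) := by
        intro z
        simp only [mem_insert, mem_singleton]
        constructor
        · intro hz
          by_cases hz' : ρ z = z
          · exact Or.inl (hz'.symm.trans hz)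
          · exact Or.inr (hM z hz')
        · rintro (rfl | rfl | rfl | rfl) <;> assumption
      have hs : ∀ x, ρ x ≠ r → x ∈ sing ρ := by
        intro x hx
        refine hsing x ?_ ?_
        · by_contra h4
          rcases hM x h4 with rfl | rfl | rfl
          · exact hx hρu
          · exact hx hρv
          · exact hx hwr
        · intro y hy h4
          rcases hM y hy with rfl | rfl | rfl
          · exact hx (by rw [← h4, hρu, hρr])
          · exact hx (by rw [← h4, hρv, hρr])
          · exact hx (by rw [← h4, hwr, hρr])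
      have main : ∀ K : SimpleGraph (Fin n), Same K H ρ → ad H r u = ad K r u →
          ad H r v = ad K r v → ad H r w = ad K r w → K = H := by
        intro K hK h4 h5 h6
        refine ext_ad fun x y => ?_
        by_cases hx : ρ x = r
        · by_cases hy : ρ y = r
          · exact quad_same hK hru hrv hrw huv hwu.symm hwv.symm hS h4 h5 h6 x y hx hy
          · exact hK.sing_right (hs y hy) rfl
        · exact hK.sing_left (hs x hx) rfl
      have hsel := h.eq r r rfl r
      have e : ∀ (K : SimpleGraph (Fin n)), dg K ρ r r =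
          (ad K r u).toNat + ((ad K r v).toNat + (ad K r w).toNat) := by
        intro K
        rw [dg_sum K {r, u, v, w} hS, Finset.sum_insert (by simp [hru, hrv, hrw]),
          Finset.sum_insert (by simp [huv, hwu.symm]), Finset.sum_pair hwv.symm, ad_self]
        simp
      rw [e, e] at hsel
      have hswap : ∀ p q : Fin n, ρ p = ρ q → ad H r u = ad G r (Equiv.swap p q u) →
          ad H r v = ad G r (Equiv.swap p q v) → ad H r w = ad G r (Equiv.swap p q w) →
          r ≠ p → r ≠ q → Nonempty (G ≃g H) := by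
        intro p q hpq h4 h5 h6 hp hq
        have hσ : ∀ x, ρ (Equiv.swap p q x) = ρ x := by
          intro x
          rcases eq_or_ne x p with rfl | hxp
          · rw [Equiv.swap_apply_left, hpq]
          · rcases eq_or_ne x q with rfl | hxq
            · rw [Equiv.swap_apply_right, hpq]
            · rw [Equiv.swap_apply_of_ne_of_ne hxp hxq]
        have hrr : Equiv.swap p q r = r := Equiv.swap_apply_of_ne_of_ne hp hq
        have hK : ∀ x, ad (G.comap (Equiv.swap p q)) r x = ad G r (Equiv.swap p q x) := by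
          intro x
          rw [Bool.eq_iff_iff, ad_iff, ad_iff]
          show G.Adj (Equiv.swap p q r) (Equiv.swap p q x) ↔ _
          rw [hrr]
        have h7 := main (G.comap (Equiv.swap p q)) (h.comap _ hσ) (by rw [hK, h4])
          (by rw [hK, h5]) (by rw [hK, h6])
        refine iso_of_perm (Equiv.swap p q) fun x y => ?_
        rw [← h7, Bool.eq_iff_iff, ad_iff, ad_iff]
        exact Iff.rfl
      rcases bits_sel _ _ _ _ _ _ hsel with h4 | h4 | h4 | h4
      · rw [main G h h4.1 h4.2.1 h4.2.2]
        exact ⟨RelIso.refl _⟩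
      · refine hswap u v (hρu.trans hρv.symm) ?_ ?_ ?_ hru hrv
        · rw [Equiv.swap_apply_left, h4.1]
        · rw [Equiv.swap_apply_right, h4.2.1]
        · rw [Equiv.swap_apply_of_ne_of_ne hwu hwv, h4.2.2]
      · refine hswap u w (hρu.trans hwr.symm) ?_ ?_ ?_ hru hrw
        · rw [Equiv.swap_apply_left, h4.1]
        · rw [Equiv.swap_apply_of_ne_of_ne huv.symm hwv.symm, h4.2.1]
        · rw [Equiv.swap_apply_right, h4.2.2]
      · refine hswap v w (hρv.trans hwr.symm) ?_ ?_ ?_ hrv hrw
        · rw [Equiv.swap_apply_of_ne_of_ne huv hwu.symm, h4.1]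
        · rw [Equiv.swap_apply_left, h4.2.1]
        · rw [Equiv.swap_apply_right, h4.2.2]
    · -- classes with three and two elements
      obtain ⟨s, hs⟩ : ∃ s, s = ρ w := ⟨_, rfl⟩
      have hρs : ρ s = s := by rw [hs, hid]
      have hsw : s ≠ w := by
        rw [hs]
        exact hw
      have hsr : s ≠ r := by
        rw [hs]
        exact hwr
      have hS : ∀ z, ρ z = r ↔ z ∈ ({r, u, v} : Finset (Fin n)) := by
        intro z
        simp only [mem_insert, mem_singleton]
        constructor
        · intro hz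
          by_cases hz' : ρ z = z
          · exact Or.inl (hz'.symm.trans hz)
          · rcases hM z hz' with rfl | rfl | rfl
            · exact Or.inr (Or.inl rfl)
            · exact Or.inr (Or.inr rfl)
            · exact absurd hz hwr
        · rintro (rfl | rfl | rfl) <;> assumption
      have hS' : ∀ z, ρ z = s ↔ z ∈ ({s, w} : Finset (Fin n)) := by
        intro z
        simp only [mem_insert, mem_singleton]
        constructor
        · intro hz
          by_cases hz' : ρ z = z
          · exact Or.inl (hz'.symm.trans hz)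
          · rcases hM z hz' with rfl | rfl | rfl
            · exact absurd (hz.symm.trans hρu) hsr
            · exact absurd (hz.symm.trans hρv) hsr
            · exact Or.inr rfl
        · rintro (rfl | rfl)
          · exact hρs
          · exact hs.symm
      have hsg : ∀ x, ρ x ≠ r → ρ x ≠ s → x ∈ sing ρ := by
        intro x hx hxs
        refine hsing x ?_ ?_
        · by_contra h4
          rcases hM x h4 with rfl | rfl | rfl
          · exact hx hρu
          · exact hx hρv
          · exact hxs hs.symm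
        · intro y hy h4
          rcases hM y hy with rfl | rfl | rfl
          · exact hx (by rw [← h4, hρu, hρr])
          · exact hx (by rw [← h4, hρv, hρr])
          · exact hxs (by rw [← h4, ← hs, hρs])
      have hGH : G = H := by
        refine ext_ad fun x y => ?_
        by_cases hx : ρ x = r
        · by_cases hy : ρ y = r
          · exact triple_same h hru hrv huv hS x y hx hy
          · by_cases hy' : ρ y = s
            · exact triple_pair_same h hru hrv huv hsw hS hS' x y hx hy'
            · exact hlr x y (Or.inr (hsg y hy hy'))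
        · by_cases hx' : ρ x = s
          · by_cases hy : ρ y = r
            · rw [ad_comm G, ad_comm H]
              exact triple_pair_same h hru hrv huv hsw hS hS' y x hy hx'
            · by_cases hy' : ρ y = s
              · exact pair_same h hsw hS' x y hx' hy'
              · exact hlr x y (Or.inr (hsg y hy hy'))
          · exact hlr x y (Or.inl (hsg x hx hx'))
      rw [hGH]
      exact ⟨RelIso.refl _⟩
  · push Not at h3
    have hM : ∀ x, ρ x ≠ x → x = u ∨ x = v := by
      intro x hx
      by_contra hcon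
      push Not at hcon
      exact hcon.2 (h3 x hx hcon.1)
    have hS : ∀ z, ρ z = r ↔ z ∈ ({r, u, v} : Finset (Fin n)) := by
      intro z
      simp only [mem_insert, mem_singleton]
      constructor
      · intro hz
        by_cases hz' : ρ z = z
        · exact Or.inl (hz'.symm.trans hz)
        · exact Or.inr (hM z hz')
      · rintro (rfl | rfl | rfl) <;> assumption
    have hsg : ∀ x, ρ x ≠ r → x ∈ sing ρ := by
      intro x hx
      refine hsing x ?_ ?_
      · by_contra h4
        rcases hM x h4 with rfl | rfl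
        · exact hx hρu
        · exact hx hρv
      · intro y hy h4
        rcases hM y hy with rfl | rfl
        · exact hx (by rw [← h4, hρu, hρr])
        · exact hx (by rw [← h4, hρv, hρr])
    have hGH : G = H := by
      refine ext_ad fun x y => ?_
      by_cases hx : ρ x = r
      · by_cases hy : ρ y = r
        · exact triple_same h hru hrv huv hS x y hx hy
        · exact hlr x y (Or.inr (hsg y hy))
      · exact hlr x y (Or.inl (hsg x hx))
    rw [hGH]
    exact ⟨RelIso.refl _⟩

end large

end Pool.Agent.N579.CR
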