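import Pool.Agent.N579.WL.Law

/-!
# Colour refinement and equitable partitions
-/

set_option autoImplicit false

namespace Pool.Agent.N579.CR

open Finset Pool.Agent.N579.WL

/-- The colours of the vertices after `t` rounds. -/
def Colour : ℕ → Type
  | 0 => Unit
  | t + 1 => Colour t × Multiset (Colour t)

open Classical in
/-- The colour of a vertex after `t` rounds of colour refinement: in the beginning all vertices have
the same colour, and one round replaces the colour of a vertex by the pair of the old colour and the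
multiset of the old colours of its neighbours. -/
noncomputable def cr {V : Type} [Fintype V] (G : SimpleGraph V) : (t : ℕ) → V → Colour t
  | 0, _ => ()
  | t + 1, v => (cr G t v, (univ.filter fun w => G.Adj v w).val.map (cr G t))

/-- Colour refinement does not distinguish `G` and `H`. -/
def CREquivalent {V W : Type} [Fintype V] [Fintype W] (G : SimpleGraph V) (H : SimpleGraph W) :
    Prop :=
  ∀ t, (univ : Finset V).val.map (cr G t) = (univ : Finset W).val.map (cr H t)

/-- Colour refinement identifies `G`: every graph which it does not distinguish from `G` is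
isomorphic to `G`. -/
def CRIdentified {V : Type} [Fintype V] (G : SimpleGraph V) : Prop :=
  ∀ (W : Type) [Fintype W] (H : SimpleGraph W), CREquivalent G H → Nonempty (G ≃g H)

section basic

variable {V W : Type} [Fintype V] [Fintype W]

theorem cr_mono {G : SimpleGraph V} {H : SimpleGraph W} {x : V} {y : W} {t s : ℕ} (hts : t ≤ s)
    (h : cr G s x = cr H s y) : cr G t x = cr H t y := by
  induction s, hts using Nat.le_induction with
  | base => exact h
  | succ s _ ih => exact ih (congrArg Prod.fst h)

theorem card_filter_count {C : Type} (G : SimpleGraph V) (x : V) (f : V → C) (c : C) [DecidableEq C]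
    [DecidableRel G.Adj] :
    ((univ.filter fun w => G.Adj x w).val.map f).count c = Nat.card {w // G.Adj x w ∧ f w = c} := by
  classical
  rw [Multiset.count_map, Nat.card_eq_fintype_card, Fintype.card_subtype, ← Finset.filter_val,
    Finset.card_val, Finset.filter_filter]
  congr 1
  ext w
  simp [eq_comm]

theorem cr_iso {G : SimpleGraph V} {H : SimpleGraph W} (φ : G ≃g H) (t : ℕ) (x : V) :
    cr G t x = cr H t (φ x) := by
  classical
  induction t generalizing x with
  | zero => rfl
  | succ t ih =>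
    refine Prod.ext (ih x) ?_
    show (univ.filter fun w => G.Adj x w).val.map (cr G t) =
      (univ.filter fun w => H.Adj (φ x) w).val.map (cr H t)
    have h1 : (univ.filter fun w => H.Adj (φ x) w) =
        (univ.filter fun w => G.Adj x w).map φ.toEquiv.toEmbedding := by
      ext w
      simp only [mem_filter, mem_univ, true_and, mem_map, Equiv.toEmbedding_apply]
      constructor
      · intro h
        refine ⟨φ.symm w, ?_, φ.apply_symm_apply w⟩
        rw [← φ.map_adj_iff, RelIso.apply_symm_apply]
        exact h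
      · rintro ⟨v, hv, rfl⟩
        exact φ.map_adj_iff.2 hv
    rw [h1, Finset.map_val, Multiset.map_map]
    exact Multiset.map_congr rfl fun w _ => ih w

end basic

variable {n : ℕ}

theorem dg_eq (G : SimpleGraph (Fin n)) (ρ : Fin n → Fin n) (x z : Fin n) :
    dg G ρ x z = Nat.card {w // G.Adj x w ∧ ρ w = z} := rfl

theorem card_adj_pred (G : SimpleGraph (Fin n)) (ρ : Fin n → Fin n) (x : Fin n)
    (A : Fin n → Prop) [DecidablePred A] :
    Nat.card {w // G.Adj x w ∧ A (ρ w)} = ∑ z, if A z then dg G ρ x z else 0 := by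
  classical
  rw [Nat.card_eq_fintype_card, Fintype.card_subtype,
    Finset.card_eq_sum_card_fiberwise (f := ρ) (t := univ) (fun _ _ => mem_univ _)]
  refine Finset.sum_congr rfl fun z _ => ?_
  split_ifs with h
  · rw [dg_eq, Nat.card_eq_fintype_card, Fintype.card_subtype, Finset.filter_filter]
    congr 1
    ext w
    simp only [mem_filter, mem_univ, true_and]
    constructor
    · rintro ⟨⟨h1, _⟩, h3⟩
      exact ⟨h1, h3⟩
    · rintro ⟨h1, h3⟩
      exact ⟨⟨h1, h3 ▸ h⟩, h3⟩
  · rw [Finset.card_eq_zero, Finset.filter_filter, Finset.filter_eq_empty_iff]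
    rintro w _ ⟨⟨_, h2⟩, rfl⟩
    exact h h2

/-- `G` and `H` have the same parameters for the classes of `ρ`. -/
structure Same (G H : SimpleGraph (Fin n)) (ρ : Fin n → Fin n) : Prop where
  eq : ∀ x y, ρ x = ρ y → ∀ z, dg G ρ x z = dg H ρ y z

theorem Same.refl {G : SimpleGraph (Fin n)} {ρ : Fin n → Fin n} (h : EqM G ρ) : Same G G ρ :=
  ⟨h.eq⟩

theorem Same.cr_eq {G H : SimpleGraph (Fin n)} {ρ : Fin n → Fin n} (h : Same G H ρ) (t : ℕ)
    (x y : Fin n) (hxy : ρ x = ρ y) : cr G t x = cr H t y := by
  classical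
  induction t generalizing x y with
  | zero => rfl
  | succ t ih =>
    refine Prod.ext (ih x y hxy) ?_
    show (univ.filter fun w => G.Adj x w).val.map (cr G t) =
      (univ.filter fun w => H.Adj y w).val.map (cr H t)
    refine Multiset.ext.2 fun c => ?_
    rw [card_filter_count, card_filter_count]
    let A : Fin n → Prop := fun z => ∃ w, ρ w = z ∧ cr G t w = c
    have hG : ∀ w, cr G t w = c ↔ A (ρ w) := by
      intro w
      constructor
      · exact fun h1 => ⟨w, rfl, h1⟩
      · rintro ⟨w', h1, h2⟩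
        rw [← h2, ih w w' h1.symm, ih w' w' rfl]
    have hH : ∀ w, cr H t w = c ↔ A (ρ w) := by
      intro w
      rw [← hG, ih w w rfl]
    have e1 : Nat.card {w // G.Adj x w ∧ cr G t w = c} = Nat.card {w // G.Adj x w ∧ A (ρ w)} :=
      congrArg Nat.card (congrArg Subtype (funext fun w => by rw [hG w]))
    have e2 : Nat.card {w // H.Adj y w ∧ cr H t w = c} = Nat.card {w // H.Adj y w ∧ A (ρ w)} :=
      congrArg Nat.card (congrArg Subtype (funext fun w => by rw [hH w]))
    rw [e1, e2, card_adj_pred, card_adj_pred]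
    refine Finset.sum_congr rfl fun z _ => ?_
    rw [h.eq x y hxy z]

/-- Graphs with the same parameters are not distinguished. -/
theorem Same.crEquivalent {G H : SimpleGraph (Fin n)} {ρ : Fin n → Fin n} (h : Same G H ρ) :
    CREquivalent G H := fun t => Multiset.map_congr rfl fun x _ => h.cr_eq t x x rfl

/-- `ρ` is the map to representatives for the coarsest equitable partition of `G`. -/
structure Coarsest (G : SimpleGraph (Fin n)) (ρ : Fin n → Fin n) : Prop where
  eqM : EqM G ρ
  le : ∀ ρ', EqM G ρ' → ∀ x y, ρ' x = ρ' y → ρ x = ρ y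

theorem equitable_of_eqM {G : SimpleGraph (Fin n)} {ρ : Fin n → Fin n} (h : EqM G ρ) :
    Equitable G (Setoid.ker ρ) := by
  intro x y hxy z
  have := h.eq x y hxy (ρ z)
  exact this

theorem exists_coarsestM (G : SimpleGraph (Fin n)) : ∃ ρ, Coarsest G ρ := by
  obtain ⟨r, h1, -, h3⟩ := exists_coarsest G ∅
  obtain ⟨ρ, h4, h5⟩ := exists_eqM h1
  refine ⟨ρ, h4, fun ρ' h x y hxy => ?_⟩
  rw [← h5]
  exact h3 _ (equitable_of_eqM h) (fun f hf => absurd hf (Set.notMem_empty f)) x y hxy

/-- Being of the same colour in all rounds. -/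
def sameCR (G : SimpleGraph (Fin n)) : Setoid (Fin n) where
  r x y := ∀ t, cr G t x = cr G t y
  iseqv := ⟨fun _ _ => rfl, fun h t => (h t).symm, fun h h' t => (h t).trans (h' t)⟩

theorem exists_roundCR (G : SimpleGraph (Fin n)) :
    ∃ T, ∀ t, T ≤ t → ∀ x y, cr G t x = cr G t y ↔ sameCR G x y := by
  classical
  have h1 : ∀ p : Fin n × Fin n, ∃ t, ¬ sameCR G p.1 p.2 → cr G t p.1 ≠ cr G t p.2 := by
    intro p
    by_cases h : sameCR G p.1 p.2
    · exact ⟨0, fun h' => absurd h h'⟩
    · have h2 : ∃ t, cr G t p.1 ≠ cr G t p.2 := by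
        by_contra h3
        push Not at h3
        exact h h3
      obtain ⟨t, ht⟩ := h2
      exact ⟨t, fun _ => ht⟩
  choose T hT using h1
  refine ⟨univ.sup T, fun t ht x y => ⟨fun h => ?_, fun h => h t⟩⟩
  by_contra h3
  exact hT (x, y) h3 (cr_mono ((Finset.le_sup (mem_univ (x, y))).trans ht) h)

theorem equitable_sameCR (G : SimpleGraph (Fin n)) : Equitable G (sameCR G) := by
  classical
  obtain ⟨T, hT⟩ := exists_roundCR G
  intro x y hxy z
  have h1 : (univ.filter fun w => G.Adj x w).val.map (cr G T) =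
      (univ.filter fun w => G.Adj y w).val.map (cr G T) := congrArg Prod.snd (hxy (T + 1))
  have h2 := congrArg (Multiset.count (cr G T z)) h1
  rw [card_filter_count, card_filter_count] at h2
  have h3 : ∀ u, Nat.card {w // G.Adj u w ∧ cr G T w = cr G T z} =
      Nat.card {w // G.Adj u w ∧ sameCR G w z} := fun u =>
    congrArg Nat.card (congrArg Subtype (funext fun w => by rw [hT T le_rfl w z]))
  rw [h3, h3] at h2
  exact h2

theorem Coarsest.of_cr {G : SimpleGraph (Fin n)} {ρ : Fin n → Fin n} (h : Coarsest G ρ)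
    {x y : Fin n} (hxy : ∀ t, cr G t x = cr G t y) : ρ x = ρ y := by
  obtain ⟨ρ', h1, h2⟩ := exists_eqM (equitable_sameCR G)
  exact h.le ρ' h1 x y ((h2 x y).1 hxy)

theorem Coarsest.iff {G : SimpleGraph (Fin n)} {ρ : Fin n → Fin n} (h : Coarsest G ρ)
    {x y : Fin n} : ρ x = ρ y ↔ ∀ t, cr G t x = cr G t y :=
  ⟨fun hxy t => (Same.refl h.eqM).cr_eq t x y hxy, h.of_cr⟩

/-- A graph that is not distinguished from `G` can be put on the same vertex set such that the
parameters are the same. -/
theorem Coarsest.transport {G : SimpleGraph (Fin n)} {ρ : Fin n → Fin n} (h : Coarsest G ρ)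
    {W : Type} [Fintype W] {H : SimpleGraph W} (hGH : CREquivalent G H) :
    ∃ H' : SimpleGraph (Fin n), Nonempty (H' ≃g H) ∧ Same G H' ρ := by
  classical
  obtain ⟨T, hT⟩ := exists_roundCR G
  obtain ⟨g, hg⟩ := exists_equiv_of_map _ _ (hGH (T + 1))
  let H' : SimpleGraph (Fin n) := H.comap g
  let φ : H' ≃g H := ⟨g, Iff.rfl⟩
  have hc : ∀ x, cr G (T + 1) x = cr H' (T + 1) x := fun x => by
    rw [cr_iso φ (T + 1) x]
    exact (hg x).symm
  have hc' : ∀ x, cr G T x = cr H' T x := fun x => congrArg Prod.fst (hc x)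
  refine ⟨H', ⟨φ⟩, ⟨fun x y hxy z => ?_⟩⟩
  have h1 : cr G (T + 1) x = cr H' (T + 1) y := by
    rw [← hc y]
    exact h.iff.1 hxy (T + 1)
  have h2 : (univ.filter fun w => G.Adj x w).val.map (cr G T) =
      (univ.filter fun w => H'.Adj y w).val.map (cr H' T) := congrArg Prod.snd h1
  by_cases hz : ρ z = z
  · have h3 := congrArg (Multiset.count (cr G T z)) h2
    rw [card_filter_count, card_filter_count] at h3
    have h4 : ∀ w, cr G T w = cr G T z ↔ ρ w = z := by
      intro w
      rw [hT T le_rfl w z]
      constructor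
      · intro h5
        rw [h.of_cr h5, hz]
      · intro h5
        exact h.iff.1 (h5.trans hz.symm)
    have e1 : Nat.card {w // G.Adj x w ∧ cr G T w = cr G T z} = dg G ρ x z :=
      congrArg Nat.card (congrArg Subtype (funext fun w => by rw [h4 w]))
    have e2 : Nat.card {w // H'.Adj y w ∧ cr H' T w = cr G T z} = dg H' ρ y z :=
      congrArg Nat.card (congrArg Subtype (funext fun w => by rw [← hc' w, h4 w]))
    rw [e1, e2] at h3
    exact h3
  · have h5 : ∀ w, ρ w ≠ z := by
      rintro w rfl
      exact hz (h.eqM.idem w)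
    unfold dg
    simp [h5]

theorem defect_le {ρ ρ' : Fin n → Fin n} (hid : ∀ x, ρ (ρ x) = ρ x) (hid' : ∀ x, ρ' (ρ' x) = ρ' x)
    (h : ∀ x y, ρ' x = ρ' y → ρ x = ρ y) : defect ρ' ≤ defect ρ := by
  classical
  have h1 := card_reps ρ
  have h2 := card_reps ρ'
  have h3 : (univ.filter fun x => ρ x = x).card ≤ (univ.filter fun x => ρ' x = x).card := by
    refine Finset.card_le_card_of_injOn ρ' ?_ ?_
    · intro x _
      simp [hid' x]
    · intro x hx y hy hxy
      simp only [coe_filter, mem_univ, true_and, Set.mem_ofPred_eq] at hx hy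
      rw [← hx, ← hy]
      exact h x y hxy
  omega

theorem eq_of_defect_le {ρ ρ' : Fin n → Fin n} (hid : ∀ x, ρ (ρ x) = ρ x)
    (hid' : ∀ x, ρ' (ρ' x) = ρ' x) (h : ∀ x y, ρ' x = ρ' y → ρ x = ρ y)
    (hd : defect ρ ≤ defect ρ') (x y : Fin n) : ρ x = ρ y ↔ ρ' x = ρ' y := by
  classical
  have h1 := card_reps ρ
  have h2 := card_reps ρ'
  have hinj : Set.InjOn ρ' ((univ.filter fun x => ρ x = x : Finset (Fin n)) : Set (Fin n)) := by
    intro x hx y hy hxy
    simp only [coe_filter, mem_univ, true_and, Set.mem_ofPred_eq] at hx hy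
    rw [← hx, ← hy]
    exact h x y hxy
  have himg : (univ.filter fun x => ρ x = x).image ρ' = univ.filter fun x => ρ' x = x := by
    refine Finset.eq_of_subset_of_card_le ?_ ?_
    · intro z hz
      obtain ⟨w, _, rfl⟩ := Finset.mem_image.1 hz
      simp [hid' w]
    · rw [Finset.card_image_of_injOn hinj]
      omega
  have hrep : ∀ z, ∃ r, ρ r = r ∧ ρ' r = ρ' z ∧ ρ z = r := by
    intro z
    have h3 : ρ' z ∈ (univ.filter fun x => ρ x = x).image ρ' := by
      rw [himg]
      simp [hid' z]
    obtain ⟨r, hr, hrz⟩ := Finset.mem_image.1 h3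
    simp only [mem_filter, mem_univ, true_and] at hr
    exact ⟨r, hr, hrz, by rw [← h r z hrz, hr]⟩
  refine ⟨fun hxy => ?_, h x y⟩
  obtain ⟨r, _, h4, h5⟩ := hrep x
  obtain ⟨s, _, h7, h8⟩ := hrep y
  have h9 : r = s := by rw [← h5, ← h8, hxy]
  rw [← h4, ← h7, h9]

end Pool.Agent.N579.CR
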