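import Pool.Agent.N579.CR.Defs
import Pool.Agent.N579.WL.Union
import Pool.Agent.N579.WL.Upper2

/-!
# Few graphs have an equitable partition of defect at least four
-/

set_option autoImplicit false

namespace Pool.Agent.N579.CR

open Finset Pool.Agent.N579.WL

/-- the graphs with an equitable partition of defect at least four -/
def Four (n : ℕ) : Set (SimpleGraph (Fin n)) := {G | ∃ ρ, EqM G ρ ∧ 4 ≤ defect ρ}

theorem fourth_pow (t : ℕ) (ht : 50 ≤ t) : t ^ 4 ≤ 2 ^ (t - 25) := by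
  induction t, ht using Nat.le_induction with
  | base => norm_num
  | succ t ht ih =>
    have h1 : t + 1 - 25 = (t - 25) + 1 := by omega
    rw [h1, pow_succ]
    have h2 : (t + 1) ^ 4 ≤ t ^ 4 * 2 := by
      have h3 : 8 * (t + 1) ≤ 9 * t := by omega
      have h4 := Nat.pow_le_pow_left h3 4
      rw [mul_pow, mul_pow] at h4
      norm_num at h4
      omega
    exact h2.trans (Nat.mul_le_mul_right _ ih)

theorem bad_large (n d t : ℕ) (ht : t = n - d) (hdn : d ≤ n) :
    (Bad n d).ncard * 2 ^ (d * (t - 1) / 2) ≤ 2 ^ n * t ^ n * 2 ^ n.choose 2 := by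
  classical
  have h1 : Bad n d ⊆ ⋃ ρ ∈ univ.filter (fun ρ : Fin n → Fin n => (∀ x, ρ (ρ x) = ρ x) ∧
      (univ.filter fun x => ρ x = x).card = t), {G : SimpleGraph (Fin n) | EqM G ρ} := by
    rintro G ⟨ρ, hG, hd⟩
    simp only [mem_filter, mem_univ, true_and, Set.mem_iUnion, Set.mem_ofPred_eq]
    have := card_reps ρ
    exact ⟨ρ, ⟨hG.idem, by omega⟩, hG⟩
  have h2 := (Set.ncard_le_ncard h1 (Set.toFinite _)).trans (Finset.set_ncard_biUnion_le _ _)
  calc (Bad n d).ncard * 2 ^ (d * (t - 1) / 2)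
      ≤ (∑ ρ ∈ univ.filter (fun ρ : Fin n → Fin n => (∀ x, ρ (ρ x) = ρ x) ∧
        (univ.filter fun x => ρ x = x).card = t), {G : SimpleGraph (Fin n) | EqM G ρ}.ncard) *
          2 ^ (d * (t - 1) / 2) := Nat.mul_le_mul_right _ h2
    _ = ∑ ρ ∈ univ.filter (fun ρ : Fin n → Fin n => (∀ x, ρ (ρ x) = ρ x) ∧
        (univ.filter fun x => ρ x = x).card = t), {G : SimpleGraph (Fin n) | EqM G ρ}.ncard *
          2 ^ (d * (t - 1) / 2) := by rw [Finset.sum_mul]
    _ ≤ ∑ ρ ∈ univ.filter (fun ρ : Fin n → Fin n => (∀ x, ρ (ρ x) = ρ x) ∧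
        (univ.filter fun x => ρ x = x).card = t), 2 ^ n.choose 2 := by
        refine Finset.sum_le_sum fun ρ hρ => ?_
        simp only [mem_filter, mem_univ, true_and] at hρ
        have h3 := bound_all ρ t hρ.2
        have h4 := card_reps ρ
        have h5 : defect ρ = d := by omega
        rwa [h5] at h3
    _ ≤ _ := by
        rw [Finset.sum_const, smul_eq_mul]
        exact Nat.mul_le_mul_right _ (card_maps' n t)

theorem lin_bound' (L : ℕ) (hL : 61 ≤ L) : 10000 * L ≤ 2 ^ (L - 1) := by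
  induction L, hL using Nat.le_induction with
  | base => norm_num
  | succ L hL ih =>
    have h1 : L + 1 - 1 = (L - 1) + 1 := by omega
    rw [h1, pow_succ]
    omega

theorem ineqA {n d L : ℕ} (hd : 13 ≤ d) (hdn : 2 * d ≤ n) (hL : 61 ≤ L) (hn : 10000 * L ≤ n) :
    2 * d * L + (4 * n + L + 1) ≤ d * (n - d - 1) / 2 := by
  rw [Nat.le_div_iff_mul_le (by norm_num)]
  obtain ⟨z, hz⟩ : ∃ z, n = z + d + 1 := ⟨n - d - 1, by omega⟩
  have h1 : n - d - 1 = z := by omega
  rw [h1]
  by_cases h8 : 8 * d ≤ n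
  · -- z ≥ 7 n / 8 - 1
    have h2 : 7 * n ≤ 8 * z + 8 := by omega
    have h3 : 13 * (z - 4 * L) ≤ d * (z - 4 * L) := Nat.mul_le_mul_right _ hd
    have h4 : d * (z - 4 * L) + d * (4 * L) = d * z := by
      rw [← mul_add]
      congr 1
      omega
    have h5 : (4 * n + L + 1) * 2 ≤ 13 * (z - 4 * L) := by omega
    nlinarith
  · have h2 : n ≤ 2 * z + 2 := by omega
    have h3 : 4 * L + 100 ≤ z := by omega
    have h4 : d * (z - 4 * L) + d * (4 * L) = d * z := by
      rw [← mul_add]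
      congr 1
      omega
    have h5 : d * 100 ≤ d * (z - 4 * L) := Nat.mul_le_mul_left _ (by omega)
    nlinarith

/-- **The tail bound.** -/
theorem four_bound {n : ℕ} (hn : 2 ^ 60 ≤ n) :
    (Four n).ncard * 2 ^ (4 * n) ≤ 2 ^ 33 * n ^ 8 * 2 ^ n.choose 2 := by
  classical
  obtain ⟨L, hLd⟩ : ∃ L, L = Nat.log 2 n + 1 := ⟨_, rfl⟩
  have hn0 : n ≠ 0 := by
    have : (0 : ℕ) < 2 ^ 60 := by norm_num
    omega
  have hL : 61 ≤ L := by
    have := Nat.log_mono_right (b := 2) hn
    rw [Nat.log_pow (by norm_num)] at this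
    omega
  have hnL : n < 2 ^ L := by
    rw [hLd]
    exact Nat.lt_pow_succ_log_self (by norm_num) n
  have hLn : 2 ^ (L - 1) ≤ n := by
    rw [hLd, Nat.add_sub_cancel]
    exact Nat.pow_log_le_self 2 hn0
  have hlin : 10000 * L ≤ n := (lin_bound' L hL).trans hLn
  have hhalf : 2 ^ (L - 2) ≤ n / 2 := by
    rw [Nat.le_div_iff_mul_le (by norm_num), ← pow_succ]
    have : L - 2 + 1 = L - 1 := by omega
    rw [this]
    exact hLn
  set M := 2 ^ n.choose 2 with hM
  -- defect four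
  have h4 : (Bad n 4).ncard * 2 ^ (4 * n) ≤ 2 ^ 32 * n ^ 8 * M := by
    have h1 := bad_small n 4
    rw [← hM] at h1
    have h2 : 4 * n = 4 * (n - 2 * 4) + 32 := by omega
    calc (Bad n 4).ncard * 2 ^ (4 * n) = (Bad n 4).ncard * 2 ^ (4 * (n - 2 * 4)) * 2 ^ 32 := by
          rw [mul_assoc, ← pow_add, ← h2]
      _ ≤ n ^ (2 * 4) * M * 2 ^ 32 := Nat.mul_le_mul_right _ h1
      _ = _ := by ring
  -- defects from five on
  let S : Finset ℕ := (Finset.range (n + 1)).filter fun d =>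
    5 ≤ d ∧ (2 * d ≤ n ∨ (n < 2 * d ∧ 50 ≤ n - d))
  have hS : S.card ≤ 2 ^ L := by
    have h1 : S ⊆ (Finset.range (n + 1)).erase 0 := by
      intro d hd
      simp only [S, mem_filter] at hd
      rw [mem_erase]
      exact ⟨by omega, hd.1⟩
    have h2 := Finset.card_le_card h1
    rw [Finset.card_erase_of_mem (by simp), Finset.card_range] at h2
    omega
  have hone : ∀ d ∈ S, (Bad n d).ncard * 2 ^ (4 * n + L + 1) ≤ M := by
    intro d hd
    simp only [S, mem_filter, mem_range] at hd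
    obtain ⟨h0, h5, h6⟩ := hd
    have hpow : n ^ (2 * d) ≤ 2 ^ (2 * d * L) := by
      calc n ^ (2 * d) ≤ (2 ^ L) ^ (2 * d) := Nat.pow_le_pow_left hnL.le _
        _ = _ := by rw [← pow_mul]; congr 1; ring
    rcases h6 with h6 | ⟨h6, h7⟩
    · by_cases h13 : 13 ≤ d
      · have hb := bad_all n d
        rw [← hM] at hb
        have h8 : 2 ^ (2 * d * L) * ((Bad n d).ncard * 2 ^ (4 * n + L + 1)) ≤
            2 ^ (2 * d * L) * M := by
          calc 2 ^ (2 * d * L) * ((Bad n d).ncard * 2 ^ (4 * n + L + 1))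
              = (Bad n d).ncard * 2 ^ (2 * d * L + (4 * n + L + 1)) := by
                rw [pow_add 2 (2 * d * L)]
                ring
            _ ≤ (Bad n d).ncard * 2 ^ (d * (n - d - 1) / 2) :=
                Nat.mul_le_mul_left _ (Nat.pow_le_pow_right (by norm_num)
                  (ineqA h13 h6 hL hlin))
            _ ≤ _ := hb
            _ ≤ _ := Nat.mul_le_mul_right _ ((card_maps n d).trans hpow)
        exact Nat.le_of_mul_le_mul_left h8 (by positivity)
      · push Not at h13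
        have hb := bad_small n d
        rw [← hM] at hb
        have h9 : 2 * d * L + (4 * n + L + 1) ≤ d * (n - 2 * d) := by
          have h10 : 5 * (n - 2 * d) ≤ d * (n - 2 * d) := Nat.mul_le_mul_right _ h5
          have h11 : d * L ≤ 12 * L := Nat.mul_le_mul_right _ (by omega)
          have h12 : 2 * d * L = 2 * (d * L) := by ring
          omega
        have h8 : 2 ^ (2 * d * L) * ((Bad n d).ncard * 2 ^ (4 * n + L + 1)) ≤
            2 ^ (2 * d * L) * M := by
          calc 2 ^ (2 * d * L) * ((Bad n d).ncard * 2 ^ (4 * n + L + 1))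
              = (Bad n d).ncard * 2 ^ (2 * d * L + (4 * n + L + 1)) := by
                rw [pow_add 2 (2 * d * L)]
                ring
            _ ≤ (Bad n d).ncard * 2 ^ (d * (n - 2 * d)) :=
                Nat.mul_le_mul_left _ (Nat.pow_le_pow_right (by norm_num) h9)
            _ ≤ _ := hb
            _ ≤ _ := Nat.mul_le_mul_right _ hpow
        exact Nat.le_of_mul_le_mul_left h8 (by positivity)
    · obtain ⟨t, ht⟩ : ∃ t, t = n - d := ⟨_, rfl⟩
      rw [← ht] at h7
      have hb := bad_large n d t ht (by omega)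
      rw [← hM] at hb
      have h8 := fourth_pow t h7
      set B := (Bad n d).ncard
      have h9 : B ^ 4 * 2 ^ (4 * (d * (t - 1) / 2)) ≤ 2 ^ (4 * n + (t - 25) * n) * M ^ 4 := by
        calc B ^ 4 * 2 ^ (4 * (d * (t - 1) / 2)) = (B * 2 ^ (d * (t - 1) / 2)) ^ 4 := by
              rw [mul_pow, ← pow_mul]
              congr 2
              ring
          _ ≤ (2 ^ n * t ^ n * M) ^ 4 := Nat.pow_le_pow_left hb 4
          _ = 2 ^ (4 * n) * (t ^ 4) ^ n * M ^ 4 := by
              have e1 : (t ^ n) ^ 4 = (t ^ 4) ^ n := by rw [← pow_mul, ← pow_mul, mul_comm]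
              have e2 : ((2 : ℕ) ^ n) ^ 4 = 2 ^ (4 * n) := by rw [← pow_mul, mul_comm]
              rw [mul_pow, mul_pow, e1, e2]
          _ ≤ 2 ^ (4 * n) * (2 ^ (t - 25)) ^ n * M ^ 4 := by
              gcongr
          _ = _ := by rw [← pow_mul, ← pow_add]
      have h10 : 4 * n + (t - 25) * n + 20 * n ≤ 4 * (d * (t - 1) / 2) := by
        obtain ⟨w, hw⟩ : ∃ w, t = w + 25 := ⟨t - 25, by omega⟩
        have h11 : t - 25 = w := by omega
        have h12 : t - 1 = w + 24 := by omega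
        rw [h11, h12]
        have h13 : (n + 1) * (w + 24) ≤ 2 * d * (w + 24) := Nat.mul_le_mul_right _ (by omega)
        have h14 : 2 * (d * (w + 24)) ≤ 4 * (d * (w + 24) / 2) + 2 := by omega
        nlinarith
      have h11 : 2 ^ (4 * n + (t - 25) * n) * (B * 2 ^ (5 * n)) ^ 4 ≤
          2 ^ (4 * n + (t - 25) * n) * M ^ 4 := by
        calc 2 ^ (4 * n + (t - 25) * n) * (B * 2 ^ (5 * n)) ^ 4
            = B ^ 4 * 2 ^ (4 * n + (t - 25) * n + 20 * n) := by
              rw [mul_pow, ← pow_mul, pow_add 2 (4 * n + (t - 25) * n) (20 * n),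
                show 5 * n * 4 = 20 * n by ring]
              ring
          _ ≤ B ^ 4 * 2 ^ (4 * (d * (t - 1) / 2)) :=
              Nat.mul_le_mul_left _ (Nat.pow_le_pow_right (by norm_num) h10)
          _ ≤ _ := h9
      have h12 := Nat.le_of_mul_le_mul_left h11 (by positivity)
      have h13 : B * 2 ^ (5 * n) ≤ M := (Nat.pow_le_pow_iff_left (by norm_num)).1 h12
      exact (Nat.mul_le_mul_left _ (Nat.pow_le_pow_right (by norm_num) (by omega))).trans h13
  -- few classes
  have hfew : (Few n 49).ncard * 2 ^ (4 * n) ≤ M := by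
    have h1 := few_bound n 49 (n / 2) (Nat.div_le_self _ _) (by
      have : (49 : ℕ) ^ 4 ≤ 2 ^ (61 - 2) := by norm_num
      have h2 : (2 : ℕ) ^ (61 - 2) ≤ 2 ^ (L - 2) := Nat.pow_le_pow_right (by norm_num) (by omega)
      omega)
    rw [← hM] at h1
    have h2 : 2 ^ (4 * n + 16 * n) ≤ (n - n / 2 + 1) ^ (n / 2) := by
      calc 2 ^ (4 * n + 16 * n) ≤ 2 ^ ((L - 2) * (n / 2)) := by
            refine Nat.pow_le_pow_right (by norm_num) ?_
            have h3 : 59 * (n / 2) ≤ (L - 2) * (n / 2) := Nat.mul_le_mul_right _ (by omega)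
            omega
        _ = (2 ^ (L - 2)) ^ (n / 2) := by rw [pow_mul]
        _ ≤ _ := Nat.pow_le_pow_left (by omega) _
    have h3 : 2 ^ (4 * n) * ((Few n 49).ncard * 2 ^ (4 * n)) ^ 4 ≤ 2 ^ (4 * n) * M ^ 4 := by
      calc 2 ^ (4 * n) * ((Few n 49).ncard * 2 ^ (4 * n)) ^ 4
          = (Few n 49).ncard ^ 4 * 2 ^ (4 * n + 16 * n) := by
            rw [mul_pow, ← pow_mul, pow_add, show 4 * n * 4 = 16 * n by ring]
            ring
        _ ≤ (Few n 49).ncard ^ 4 * (n - n / 2 + 1) ^ (n / 2) := Nat.mul_le_mul_left _ h2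
        _ ≤ _ := h1
        _ = _ := by rw [show (16 : ℕ) = 2 ^ 4 by norm_num, ← pow_mul]
    exact (Nat.pow_le_pow_iff_left (by norm_num)).1 (Nat.le_of_mul_le_mul_left h3 (by positivity))
  have hsub : Four n ⊆ Bad n 4 ∪ ((⋃ d ∈ S, Bad n d) ∪ Few n 49) := by
    rintro G ⟨ρ, h1, h2⟩
    have h3 := card_reps ρ
    by_cases h5 : defect ρ = 4
    · exact Or.inl ⟨ρ, h1, h5⟩
    · right
      by_cases h6 : 2 * defect ρ ≤ n ∨ (n < 2 * defect ρ ∧ 50 ≤ n - defect ρ)
      · left
        simp only [Set.mem_iUnion]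
        refine ⟨defect ρ, ?_, ρ, h1, rfl⟩
        simp only [S, mem_filter, mem_range]
        exact ⟨by omega, by omega, h6⟩
      · right
        have h8 : (univ.image fun v => (nb G v).card).card ≤
            (univ.filter fun x => ρ x = x).card := few_of_eqM h1
        show (univ.image fun v => (nb G v).card).card ≤ 49
        omega
  have hcard : (Four n).ncard ≤ (Bad n 4).ncard + ((∑ d ∈ S, (Bad n d).ncard) + (Few n 49).ncard) :=
    (Set.ncard_le_ncard hsub (Set.toFinite _)).trans ((Set.ncard_union_le _ _).trans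
      (Nat.add_le_add_left ((Set.ncard_union_le _ _).trans
        (Nat.add_le_add_right (Finset.set_ncard_biUnion_le _ _) _)) _))
  have hsum : (∑ d ∈ S, (Bad n d).ncard) * 2 ^ (4 * n) ≤ M := by
    have h1 : (∑ d ∈ S, (Bad n d).ncard) * 2 ^ (4 * n + L + 1) ≤ 2 ^ L * M := by
      rw [Finset.sum_mul]
      refine (Finset.sum_le_sum hone).trans ?_
      rw [Finset.sum_const, smul_eq_mul]
      exact Nat.mul_le_mul_right _ hS
    have h2 : 2 ^ L * ((∑ d ∈ S, (Bad n d).ncard) * 2 ^ (4 * n)) ≤ 2 ^ L * M := by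
      refine le_trans ?_ h1
      calc 2 ^ L * ((∑ d ∈ S, (Bad n d).ncard) * 2 ^ (4 * n))
          = (∑ d ∈ S, (Bad n d).ncard) * 2 ^ (4 * n + L) := by rw [pow_add]; ring
        _ ≤ _ := Nat.mul_le_mul_left _ (Nat.pow_le_pow_right (by norm_num) (by omega))
    exact Nat.le_of_mul_le_mul_left h2 (by positivity)
  have hn8 : 1 ≤ n ^ 8 := Nat.one_le_pow _ _ (by omega)
  calc (Four n).ncard * 2 ^ (4 * n)
      ≤ ((Bad n 4).ncard + ((∑ d ∈ S, (Bad n d).ncard) + (Few n 49).ncard)) * 2 ^ (4 * n) :=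
        Nat.mul_le_mul_right _ hcard
    _ = (Bad n 4).ncard * 2 ^ (4 * n) + ((∑ d ∈ S, (Bad n d).ncard) * 2 ^ (4 * n) +
          (Few n 49).ncard * 2 ^ (4 * n)) := by ring
    _ ≤ 2 ^ 32 * n ^ 8 * M + (M + M) := Nat.add_le_add h4 (Nat.add_le_add hsum hfew)
    _ ≤ 2 ^ 32 * n ^ 8 * M + 2 ^ 32 * n ^ 8 * M := by
        refine Nat.add_le_add_left ?_ _
        calc M + M = 2 * 1 * M := by ring
          _ ≤ 2 ^ 32 * n ^ 8 * M := Nat.mul_le_mul_right _ (Nat.mul_le_mul (by norm_num) hn8)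
    _ = _ := by ring

end Pool.Agent.N579.CR
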