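import Pool.Agent.N579.CR.Number
import Pool.Agent.N579.CR.Tail

/-!
# The number of graphs which colour refinement does not identify
-/

set_option autoImplicit false

namespace Pool.Agent.N579.CR

open Finset Pool.Agent.N579.WL

/-- the number of graphs which are not identified -/
noncomputable def bad (n : ℕ) : ℕ := {G : SimpleGraph (Fin n) | ¬ CRIdentified G}.ncard

theorem bad_eq_sum (n : ℕ) [DecidablePred fun G : SimpleGraph (Fin n) => ¬ CRIdentified G] :
    (bad n : ℝ) = ∑ G : SimpleGraph (Fin n), if ¬ CRIdentified G then (1 : ℝ) else 0 := by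
  classical
  unfold bad
  rw [Set.ncard_eq_toFinset_card', Finset.sum_boole]
  congr 2
  ext G
  simp

theorem four_eq_sum (n : ℕ) [DecidablePred fun G : SimpleGraph (Fin n) => G ∈ Four n] :
    ((Four n).ncard : ℝ) = ∑ G : SimpleGraph (Fin n), if G ∈ Four n then (1 : ℝ) else 0 := by
  classical
  rw [Set.ncard_eq_toFinset_card', Finset.sum_boole]
  congr 2
  ext G
  simp

theorem count_close (n : ℕ) (hn : 48 ≤ n) :
    |48 * (bad n : ℝ) - ∑ G : SimpleGraph (Fin n), (Nat.card {f // Trip G f} : ℝ)| ≤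
      (n : ℝ) ^ 6 * (Four n).ncard := by
  classical
  rw [bad_eq_sum, four_eq_sum, Finset.mul_sum, Finset.mul_sum, ← Finset.sum_sub_distrib]
  refine (Finset.abs_sum_le_sum_abs _ _).trans (Finset.sum_le_sum fun G _ => ?_)
  have hnR : (48 : ℝ) ≤ n := by exact_mod_cast hn
  have hn6 : (48 : ℝ) ≤ (n : ℝ) ^ 6 := by
    calc (48 : ℝ) ≤ n := hnR
      _ = (n : ℝ) ^ 1 := (pow_one _).symm
      _ ≤ (n : ℝ) ^ 6 := pow_le_pow_right₀ (by linarith) (by norm_num)
  have hN0 : (0 : ℝ) ≤ (Nat.card {f // Trip G f} : ℝ) := Nat.cast_nonneg _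
  have hN1 : (Nat.card {f // Trip G f} : ℝ) ≤ (n : ℝ) ^ 6 := by
    have h1 : Nat.card {f // Trip G f} ≤ n ^ 6 := by
      rw [Nat.card_eq_fintype_card]
      refine (Fintype.card_subtype_le _).trans ?_
      rw [Fintype.card_embedding_eq, Fintype.card_prod, Fintype.card_fin, Fintype.card_fin,
        Fintype.card_bool]
      exact Nat.descFactorial_le_pow n 6
    exact_mod_cast h1
  by_cases hG : G ∈ Four n
  · rw [if_pos hG, mul_one, abs_le]
    split_ifs <;> constructor <;> linarith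
  · have hG' : ∀ ρ, EqM G ρ → defect ρ ≤ 3 := by
      intro ρ hρ
      by_contra hcon
      exact hG ⟨ρ, hρ, by omega⟩
    have hiff := not_identified_iff (G := G) (by omega) hG'
    rw [if_neg hG, mul_zero]
    by_cases hid : ¬ CRIdentified G
    · obtain ⟨f, hf⟩ := hiff.1 hid
      rw [if_pos hid, card_trip hG' hf]
      norm_num
    · rw [if_neg hid]
      have h1 : Nat.card {f // Trip G f} = 0 := by
        have : IsEmpty {f // Trip G f} := ⟨fun f => hid (hiff.2 ⟨f.1, f.2⟩)⟩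
        exact Nat.card_of_isEmpty
      rw [h1]
      norm_num

theorem main_large (n : ℕ) (hn : 2 ^ 60 ≤ n) :
    |(bad n : ℝ) / 2 ^ n.choose 2 - 32 / 3 * n.descFactorial 6 / 8 ^ n| ≤
      2 ^ 28 * (n : ℝ) ^ 14 / 16 ^ n := by
  have hn48 : 48 ≤ n := le_trans (by norm_num) hn
  have h1 := count_close n hn48
  have h2 := sum_trip n
  have h3 := four_bound hn
  set M : ℝ := 2 ^ n.choose 2 with hM
  have hM0 : 0 < M := by positivity
  have h2' : (∑ G : SimpleGraph (Fin n), (Nat.card {f // Trip G f} : ℝ)) * 8 ^ n =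
      n.descFactorial 6 * (2 ^ 9 * M) := by
    have : ((8 : ℝ)) ^ n = 2 ^ (3 * n) := by
      rw [pow_mul]
      norm_num
    rw [this, hM]
    exact_mod_cast h2
  have h3' : ((Four n).ncard : ℝ) * 16 ^ n ≤ 2 ^ 33 * (n : ℝ) ^ 8 * M := by
    have : ((16 : ℝ)) ^ n = 2 ^ (4 * n) := by
      rw [pow_mul]
      norm_num
    rw [this, hM]
    exact_mod_cast h3
  set S : ℝ := ∑ G : SimpleGraph (Fin n), (Nat.card {f // Trip G f} : ℝ) with hS
  have h8 : (0 : ℝ) < 8 ^ n := by positivity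
  have h16 : (0 : ℝ) < 16 ^ n := by positivity
  have h4 : S / (48 * M) = 32 / 3 * n.descFactorial 6 / 8 ^ n := by
    rw [div_eq_div_iff (by positivity) (by positivity)]
    linear_combination h2'
  have h5 : (bad n : ℝ) / M - 32 / 3 * n.descFactorial 6 / 8 ^ n =
      (48 * (bad n : ℝ) - S) / (48 * M) := by
    rw [← h4]
    field_simp
  rw [h5, abs_div, abs_of_pos (by positivity : (0 : ℝ) < 48 * M), div_le_div_iff₀ (by positivity) h16]
  calc |48 * (bad n : ℝ) - S| * 16 ^ n ≤ ((n : ℝ) ^ 6 * (Four n).ncard) * 16 ^ n :=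
        mul_le_mul_of_nonneg_right h1 h16.le
    _ = (n : ℝ) ^ 6 * ((Four n).ncard * 16 ^ n) := by ring
    _ ≤ (n : ℝ) ^ 6 * (2 ^ 33 * (n : ℝ) ^ 8 * M) := mul_le_mul_of_nonneg_left h3' (by positivity)
    _ = 2 ^ 33 * ((n : ℝ) ^ 14 * M) := by ring
    _ ≤ (2 ^ 28 * 48) * ((n : ℝ) ^ 14 * M) :=
        mul_le_mul_of_nonneg_right (by norm_num) (by positivity)
    _ = _ := by ring

/-- **The exact asymptotics of the fraction of the graphs which colour refinement does not
identify.** -/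
theorem main_thm : ∃ C : ℝ, ∀ n : ℕ, 1 ≤ n →
    |(bad n : ℝ) / 2 ^ n.choose 2 - 32 / 3 * n.descFactorial 6 / 8 ^ n| ≤
      C * (n : ℝ) ^ 14 / 16 ^ n := by
  obtain ⟨N, hN⟩ : ∃ N : ℕ, N = 2 ^ 60 := ⟨_, rfl⟩
  refine ⟨max (2 ^ 28) (12 * 16 ^ N), fun n hn1 => ?_⟩
  by_cases hn : N ≤ n
  · refine (main_large n (hN ▸ hn)).trans ?_
    gcongr
    exact le_max_left _ _
  · push Not at hn
    have hnR : (1 : ℝ) ≤ n := by exact_mod_cast hn1
    have h1 : (bad n : ℝ) / 2 ^ n.choose 2 ≤ 1 := by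
      rw [div_le_one (by positivity)]
      have h2 : bad n ≤ 2 ^ n.choose 2 := by
        rw [← card_graphs]
        unfold bad
        rw [← Set.ncard_univ]
        exact Set.ncard_le_ncard (Set.subset_univ _) (Set.toFinite _)
      exact_mod_cast h2
    have h0 : (0 : ℝ) ≤ (bad n : ℝ) / 2 ^ n.choose 2 := by positivity
    have h2 : 32 / 3 * (n.descFactorial 6 : ℝ) / 8 ^ n ≤ 11 * (n : ℝ) ^ 6 := by
      have h3 : (n.descFactorial 6 : ℝ) ≤ (n : ℝ) ^ 6 := by
        exact_mod_cast Nat.descFactorial_le_pow n 6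
      have h4 : (1 : ℝ) ≤ 8 ^ n := one_le_pow₀ (by norm_num)
      calc 32 / 3 * (n.descFactorial 6 : ℝ) / 8 ^ n ≤ 32 / 3 * (n.descFactorial 6 : ℝ) :=
            div_le_self (by positivity) h4
        _ ≤ 11 * (n : ℝ) ^ 6 := by
            have : (0 : ℝ) ≤ n.descFactorial 6 := Nat.cast_nonneg _
            nlinarith
    have h20 : 0 ≤ 32 / 3 * (n.descFactorial 6 : ℝ) / 8 ^ n := by positivity
    have h5 : |(bad n : ℝ) / 2 ^ n.choose 2 - 32 / 3 * n.descFactorial 6 / 8 ^ n| ≤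
        12 * (n : ℝ) ^ 14 := by
      have h6 : (n : ℝ) ^ 6 ≤ (n : ℝ) ^ 14 := pow_le_pow_right₀ hnR (by norm_num)
      have h7 : (1 : ℝ) ≤ (n : ℝ) ^ 14 := one_le_pow₀ hnR
      rw [abs_le]
      constructor <;> nlinarith
    refine h5.trans ?_
    rw [le_div_iff₀ (by positivity)]
    have h6 : (16 : ℝ) ^ n ≤ 16 ^ N := pow_le_pow_right₀ (by norm_num) hn.le
    calc 12 * (n : ℝ) ^ 14 * 16 ^ n ≤ 12 * (n : ℝ) ^ 14 * 16 ^ N :=
          mul_le_mul_of_nonneg_left h6 (by positivity)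
      _ = 12 * 16 ^ N * (n : ℝ) ^ 14 := by ring
      _ ≤ _ := mul_le_mul_of_nonneg_right (le_max_right _ _) (by positivity)

end Pool.Agent.N579.CR
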