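import Pool.Agent.N579.CR.Twist

/-!
# The number of graphs with a given bad pattern
-/

set_option autoImplicit false

namespace Pool.Agent.N579.CR

open Finset Pool.Agent.N579.WL

variable {n : ℕ}

/-- Conditions which can be changed independently of each other. -/
theorem count_conditions {ι : Type} (I : Finset ι) (c : ι → SimpleGraph (Fin n) → Prop)
    (e : ι → Sym2 (Fin n)) (h1 : ∀ i ∈ I, ∀ G, c i (flip (e i) G) ↔ ¬ c i G)
    (h2 : ∀ i ∈ I, ∀ j ∈ I, i ≠ j → ∀ G, c j (flip (e i) G) ↔ c j G) :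
    {G : SimpleGraph (Fin n) | ∀ i ∈ I, c i G}.ncard * 2 ^ I.card = 2 ^ n.choose 2 := by
  classical
  induction I using Finset.induction_on with
  | empty =>
    have : {G : SimpleGraph (Fin n) | ∀ i ∈ (∅ : Finset ι), c i G} = Set.univ := by
      ext G
      simp
    rw [this, Set.ncard_univ, card_graphs, Finset.card_empty, pow_zero, mul_one]
  | insert i I hi ih =>
    have ih' := ih (fun j hj => h1 j (mem_insert_of_mem hj))
      (fun j hj l hl => h2 j (mem_insert_of_mem hj) l (mem_insert_of_mem hl))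
    set A : Set (SimpleGraph (Fin n)) := {G | ∀ j ∈ I, c j G} with hA
    set B : Set (SimpleGraph (Fin n)) := {G | ∀ j ∈ insert i I, c j G} with hB
    have hmem : ∀ G, G ∈ B ↔ c i G ∧ G ∈ A := by
      intro G
      simp only [hA, hB, Set.mem_ofPred_eq, mem_insert, forall_eq_or_imp]
    have hfA : ∀ G, flip (e i) G ∈ A ↔ G ∈ A := by
      intro G
      simp only [hA, Set.mem_ofPred_eq]
      refine forall_congr' fun j => forall_congr' fun hj => ?_
      exact h2 i (mem_insert_self i I) j (mem_insert_of_mem hj) (fun h => hi (h ▸ hj)) G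
    have hBA : B ⊆ A := fun G hG => ((hmem G).1 hG).2
    have himg : flip (e i) '' B = A \ B := by
      ext G
      rw [Set.mem_image, Set.mem_sdiff]
      constructor
      · rintro ⟨K, hK, rfl⟩
        have hK' := (hmem K).1 hK
        refine ⟨(hfA K).2 hK'.2, fun h => ?_⟩
        have h3 := ((hmem _).1 h).1
        rw [h1 i (mem_insert_self i I)] at h3
        exact h3 hK'.1
      · rintro ⟨h3, h4⟩
        refine ⟨flip (e i) G, ?_, WL.flip_flip _ _⟩
        rw [hmem, hfA, h1 i (mem_insert_self i I)]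
        exact ⟨fun h5 => h4 ((hmem G).2 ⟨h5, h3⟩), h3⟩
    have hinj : Function.Injective (flip (e i)) := fun G K h => by
      rw [← WL.flip_flip (e i) G, h, WL.flip_flip]
    have hcard : A.ncard = 2 * B.ncard := by
      have h3 := Set.ncard_sdiff_add_ncard_of_subset hBA (Set.toFinite A)
      rw [← himg, Set.ncard_image_of_injective _ hinj] at h3
      omega
    rw [Finset.card_insert_of_notMem hi, pow_succ, ← ih', hcard]
    ring

theorem ad_flip_ne {G : SimpleGraph (Fin n)} {e : Sym2 (Fin n)} {x y : Fin n} (h : s(x, y) ≠ e) :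
    ad (flip e G) x y = ad G x y := by
  rw [Bool.eq_iff_iff, ad_iff, ad_iff, flip_adj]
  have : G.Adj x y → x ≠ y := fun h => h.ne
  tauto

theorem ad_flip_eq {G : SimpleGraph (Fin n)} {e : Sym2 (Fin n)} {x y : Fin n} (hxy : x ≠ y)
    (h : s(x, y) = e) : ad (flip e G) x y = !(ad G x y) := by
  have h1 : (!(ad G x y)) = true ↔ ¬ G.Adj x y := by
    rw [Bool.not_eq_true', ← Bool.not_eq_true, ad_iff]
  rw [Bool.eq_iff_iff, h1, ad_iff, flip_adj]
  tauto

/-- The type of the indices of the conditions. -/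
abbrev Idx (n : ℕ) : Type := (Fin 3 × Fin n) ⊕ ((Fin 3 × Fin 3) × (Bool × Bool))

/-- The conditions of the pattern. -/
def cnd (f : Fin 3 × Bool ↪ Fin n) : Idx n → SimpleGraph (Fin n) → Prop
  | .inl q, G => ad G (f (q.1, true)) q.2 = ad G (f (q.1, false)) q.2
  | .inr q, G => ad G (f (q.1.1, q.2.1)) (f (q.1.2, q.2.2)) =
      xor (ad G (f (q.1.1, false)) (f (q.1.2, false))) (xor q.2.1 q.2.2)

/-- The decisive pairs. -/
def epr (f : Fin 3 × Bool ↪ Fin n) : Idx n → Sym2 (Fin n)
  | .inl q => s(f (q.1, true), q.2)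
  | .inr q => s(f (q.1.1, q.2.1), f (q.1.2, q.2.2))

/-- The set of the indices. -/
noncomputable def idxs (f : Fin 3 × Bool ↪ Fin n) : Finset (Idx n) := by
  classical
  exact ((univ : Finset (Fin 3)) ×ˢ (univ.filter fun w => ∀ p, f p ≠ w)).disjSum
    ((univ.filter fun q : Fin 3 × Fin 3 => q.1 < q.2) ×ˢ
      (univ.filter fun b : Bool × Bool => b ≠ (false, false)))

theorem mem_idxs_inl {f : Fin 3 × Bool ↪ Fin n} {q : Fin 3 × Fin n} :
    (Sum.inl q : Idx n) ∈ idxs f ↔ ∀ p, f p ≠ q.2 := by
  classical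
  unfold idxs
  rw [Finset.inl_mem_disjSum, mem_product]
  simp

theorem mem_idxs_inr {f : Fin 3 × Bool ↪ Fin n} {q : (Fin 3 × Fin 3) × (Bool × Bool)} :
    (Sum.inr q : Idx n) ∈ idxs f ↔ q.1.1 < q.1.2 ∧ q.2 ≠ (false, false) := by
  classical
  unfold idxs
  rw [Finset.inr_mem_disjSum, mem_product]
  simp

theorem card_idxs (f : Fin 3 × Bool ↪ Fin n) : (idxs f).card + 9 = 3 * n := by
  classical
  have h1 : (univ.filter fun w => ∀ p, f p ≠ w).card + 6 = n := by
    have h2 : (univ.filter fun w => ∀ p, f p ≠ w) = (univ.map f)ᶜ := by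
      ext w
      simp
    have h3 : (univ.map f : Finset (Fin n)).card = 6 := by
      rw [Finset.card_map, Finset.card_univ, Fintype.card_prod, Fintype.card_fin,
        Fintype.card_bool]
    have h4 := Finset.card_compl_add_card (univ.map f : Finset (Fin n))
    rw [h2]
    rw [h3, Fintype.card_fin] at h4
    exact h4
  unfold idxs
  rw [Finset.card_disjSum, Finset.card_product, Finset.card_product, Finset.card_univ,
    Fintype.card_fin]
  have h5 : (univ.filter fun q : Fin 3 × Fin 3 => q.1 < q.2).card = 3 := by decide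
  have h6 : (univ.filter fun b : Bool × Bool => b ≠ (false, false)).card = 3 := by decide
  rw [h5, h6]
  omega

theorem trip_iff {f : Fin 3 × Bool ↪ Fin n} {G : SimpleGraph (Fin n)} :
    Trip G f ↔ ∀ i ∈ idxs f, cnd f i G := by
  constructor
  · rintro h (⟨i, w⟩ | ⟨⟨i, j⟩, b, c⟩) hi
    · exact h.out i w (mem_idxs_inl.1 hi)
    · exact h.val (ne_of_lt (mem_idxs_inr.1 hi).1) b c
  · intro h
    have hval : ∀ i j, i < j → ∀ b c, ad G (f (i, b)) (f (j, c)) =
        xor (ad G (f (i, false)) (f (j, false))) (xor b c) := by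
      intro i j hij b c
      by_cases hbc : (b, c) = (false, false)
      · obtain ⟨rfl, rfl⟩ := Prod.mk.inj hbc
        simp
      · exact h (Sum.inr ((i, j), (b, c))) (mem_idxs_inr.2 ⟨hij, hbc⟩)
    refine ⟨fun i w hw => h (Sum.inl (i, w)) (mem_idxs_inl.2 hw), ?_⟩
    intro i j hij b c
    rcases lt_or_gt_of_ne hij with h1 | h1
    · rw [hval i j h1 (!b) c, hval i j h1 b c]
      cases b <;> cases c <;> simp
    · rw [ad_comm, ad_comm G (f (i, b)), hval j i h1 c (!b), hval j i h1 c b]
      cases b <;> cases c <;> simp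

theorem sym2_ne {a b c d : Fin n} (h1 : ¬ (a = c ∧ b = d)) (h2 : ¬ (a = d ∧ b = c)) :
    s(a, b) ≠ s(c, d) := by
  intro h
  rw [Sym2.eq_iff] at h
  rcases h with h | h
  · exact h1 h
  · exact h2 h

theorem card_trip_graphs (f : Fin 3 × Bool ↪ Fin n) :
    {G : SimpleGraph (Fin n) | Trip G f}.ncard * 2 ^ (3 * n) = 2 ^ 9 * 2 ^ n.choose 2 := by
  classical
  have h1 : ∀ i ∈ idxs f, ∀ G, cnd f i (flip (epr f i) G) ↔ ¬ cnd f i G := by
    rintro (⟨i, w⟩ | ⟨⟨i, j⟩, b, c⟩) hi G
    · have hw := mem_idxs_inl.1 hi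
      show ad (flip s(f (i, true), w) G) (f (i, true)) w =
        ad (flip s(f (i, true), w) G) (f (i, false)) w ↔ ¬ (ad G (f (i, true)) w =
          ad G (f (i, false)) w)
      rw [ad_flip_eq (hw (i, true)) rfl, ad_flip_ne (sym2_ne ?_ ?_)]
      · generalize ad G (f (i, true)) w = p
        generalize ad G (f (i, false)) w = q
        revert p q
        decide
      · rintro ⟨h2, _⟩
        exact absurd (Prod.mk.inj (f.injective h2)).2 (by decide)
      · rintro ⟨h2, _⟩
        exact hw (i, false) h2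
    · obtain ⟨hij, hbc⟩ := mem_idxs_inr.1 hi
      have hij' : i ≠ j := ne_of_lt hij
      show ad (flip s(f (i, b), f (j, c)) G) (f (i, b)) (f (j, c)) =
        xor (ad (flip s(f (i, b), f (j, c)) G) (f (i, false)) (f (j, false))) (xor b c) ↔
          ¬ (ad G (f (i, b)) (f (j, c)) =
            xor (ad G (f (i, false)) (f (j, false))) (xor b c))
      rw [ad_flip_eq (fun h2 => hij' (Prod.mk.inj (f.injective h2)).1) rfl,
        ad_flip_ne (sym2_ne ?_ ?_)]
      · generalize ad G (f (i, b)) (f (j, c)) = p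
        generalize xor (ad G (f (i, false)) (f (j, false))) (xor b c) = q
        revert p q
        decide
      · rintro ⟨h2, h3⟩
        exact hbc (Prod.ext (Prod.mk.inj (f.injective h2)).2.symm
          (Prod.mk.inj (f.injective h3)).2.symm)
      · rintro ⟨h2, _⟩
        exact hij' (Prod.mk.inj (f.injective h2)).1
  have h2 : ∀ i ∈ idxs f, ∀ j ∈ idxs f, i ≠ j → ∀ G, cnd f j (flip (epr f i) G) ↔ cnd f j G := by
    rintro (⟨i, w⟩ | ⟨⟨i, j⟩, b, c⟩) hi (⟨i', w'⟩ | ⟨⟨i', j'⟩, b', c'⟩) hi' hne G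
    · have hw := mem_idxs_inl.1 hi
      have hw' := mem_idxs_inl.1 hi'
      show ad (flip s(f (i, true), w) G) (f (i', true)) w' =
        ad (flip s(f (i, true), w) G) (f (i', false)) w' ↔ ad G (f (i', true)) w' =
          ad G (f (i', false)) w'
      rw [ad_flip_ne (sym2_ne ?_ ?_), ad_flip_ne (sym2_ne ?_ ?_)]
      · rintro ⟨h3, _⟩
        exact absurd (Prod.mk.inj (f.injective h3)).2 (by decide)
      · rintro ⟨h3, _⟩
        exact hw _ h3
      · rintro ⟨h3, h4⟩
        apply hne
        rw [(Prod.mk.inj (f.injective h3)).1, show w = w' from h4.symm]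
      · rintro ⟨h3, _⟩
        exact hw _ h3
    · have hw := mem_idxs_inl.1 hi
      show ad (flip s(f (i, true), w) G) (f (i', b')) (f (j', c')) =
        xor (ad (flip s(f (i, true), w) G) (f (i', false)) (f (j', false))) (xor b' c') ↔
          ad G (f (i', b')) (f (j', c')) =
            xor (ad G (f (i', false)) (f (j', false))) (xor b' c')
      rw [ad_flip_ne (sym2_ne ?_ ?_), ad_flip_ne (sym2_ne ?_ ?_)]
      · rintro ⟨_, h3⟩
        exact hw _ h3
      · rintro ⟨h3, _⟩
        exact hw _ h3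
      · rintro ⟨_, h3⟩
        exact hw _ h3
      · rintro ⟨h3, _⟩
        exact hw _ h3
    · have hw' := mem_idxs_inl.1 hi'
      show ad (flip s(f (i, b), f (j, c)) G) (f (i', true)) w' =
        ad (flip s(f (i, b), f (j, c)) G) (f (i', false)) w' ↔ ad G (f (i', true)) w' =
          ad G (f (i', false)) w'
      rw [ad_flip_ne (sym2_ne ?_ ?_), ad_flip_ne (sym2_ne ?_ ?_)]
      · rintro ⟨_, h3⟩
        exact hw' _ h3.symm
      · rintro ⟨_, h3⟩
        exact hw' _ h3.symm
      · rintro ⟨_, h3⟩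
        exact hw' _ h3.symm
      · rintro ⟨_, h3⟩
        exact hw' _ h3.symm
    · obtain ⟨hij, hbc⟩ := mem_idxs_inr.1 hi
      obtain ⟨hij', hbc'⟩ := mem_idxs_inr.1 hi'
      show ad (flip s(f (i, b), f (j, c)) G) (f (i', b')) (f (j', c')) =
        xor (ad (flip s(f (i, b), f (j, c)) G) (f (i', false)) (f (j', false))) (xor b' c') ↔
          ad G (f (i', b')) (f (j', c')) =
            xor (ad G (f (i', false)) (f (j', false))) (xor b' c')
      rw [ad_flip_ne (sym2_ne ?_ ?_), ad_flip_ne (sym2_ne ?_ ?_)]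
      · rintro ⟨h3, h4⟩
        exact hbc (Prod.ext (Prod.mk.inj (f.injective h3)).2.symm
          (Prod.mk.inj (f.injective h4)).2.symm)
      · rintro ⟨h3, h4⟩
        exact hbc (Prod.ext (Prod.mk.inj (f.injective h4)).2.symm
          (Prod.mk.inj (f.injective h3)).2.symm)
      · rintro ⟨h3, h4⟩
        apply hne
        obtain ⟨e1, e2⟩ := Prod.mk.inj (f.injective h3)
        obtain ⟨e3, e4⟩ := Prod.mk.inj (f.injective h4)
        rw [e1, e2, e3, e4]
      · rintro ⟨h3, h4⟩
        have e1 : i' = j := (Prod.mk.inj (f.injective h3)).1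
        have e2 : j' = i := (Prod.mk.inj (f.injective h4)).1
        have h5 : i < j := hij
        have h6 : i' < j' := hij'
        rw [e1, e2] at h6
        exact lt_asymm h5 h6
  have h3 := count_conditions (idxs f) (cnd f) (epr f) h1 h2
  have h4 : {G : SimpleGraph (Fin n) | Trip G f} = {G | ∀ i ∈ idxs f, cnd f i G} := by
    ext G
    exact trip_iff
  rw [h4, ← h3, ← card_idxs f, pow_add]
  ring

/-- The total number of patterns. -/
theorem sum_trip (n : ℕ) :
    (∑ G : SimpleGraph (Fin n), Nat.card {f // Trip G f}) * 2 ^ (3 * n) =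
      n.descFactorial 6 * (2 ^ 9 * 2 ^ n.choose 2) := by
  classical
  have h1 : ∑ G : SimpleGraph (Fin n), Nat.card {f // Trip G f} =
      ∑ f : Fin 3 × Bool ↪ Fin n, {G : SimpleGraph (Fin n) | Trip G f}.ncard := by
    have e1 : ∀ G : SimpleGraph (Fin n), Nat.card {f // Trip G f} =
        ∑ f : Fin 3 × Bool ↪ Fin n, if Trip G f then 1 else 0 := by
      intro G
      rw [Nat.card_eq_fintype_card, Fintype.card_subtype, Finset.card_filter]
    have e2 : ∀ f : Fin 3 × Bool ↪ Fin n, {G : SimpleGraph (Fin n) | Trip G f}.ncard =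
        ∑ G : SimpleGraph (Fin n), if Trip G f then 1 else 0 := by
      intro f
      rw [Set.ncard_eq_toFinset_card', ← Finset.card_filter]
      congr 1
      ext G
      simp
    simp only [e1, e2]
    exact Finset.sum_comm
  rw [h1, Finset.sum_mul, Finset.sum_congr rfl fun f _ => card_trip_graphs f, Finset.sum_const,
    Finset.card_univ, Fintype.card_embedding_eq, Fintype.card_prod, Fintype.card_fin,
    Fintype.card_fin, Fintype.card_bool, smul_eq_mul]

end Pool.Agent.N579.CR
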