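import Pool.Agent.N579.CR.Classify

/-!
# The bad pattern and the twisted graph
-/

set_option autoImplicit false

namespace Pool.Agent.N579.CR

open Finset Pool.Agent.N579.WL

variable {n : ℕ}

theorem adEq {G : SimpleGraph (Fin n)} {x y : Fin n} {b : Bool} (h : G.Adj x y ↔ b = true) :
    ad G x y = b := by
  rw [Bool.eq_iff_iff, ad_iff, h]

/-- The map to representatives for the partition of a pattern. -/
noncomputable def rf (f : Fin 3 × Bool ↪ Fin n) (x : Fin n) : Fin n := by
  classical
  exact if h : ∃ i, f (i, true) = x then f (h.choose, false) else x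

section rf

variable (f : Fin 3 × Bool ↪ Fin n)

theorem rf_true (i : Fin 3) : rf f (f (i, true)) = f (i, false) := by
  classical
  unfold rf
  have h : ∃ j, f (j, true) = f (i, true) := ⟨i, rfl⟩
  rw [dif_pos h]
  have h1 := f.injective h.choose_spec
  rw [(Prod.mk.inj h1).1]

theorem rf_of {x : Fin n} (h : ∀ i, f (i, true) ≠ x) : rf f x = x := by
  classical
  unfold rf
  rw [dif_neg]
  push Not
  exact h

theorem rf_false (i : Fin 3) : rf f (f (i, false)) = f (i, false) := by
  refine rf_of f fun j h => ?_
  have h1 := f.injective h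
  exact absurd (Prod.mk.inj h1).2 (by decide)

theorem rf_apply (p : Fin 3 × Bool) : rf f (f p) = f (p.1, false) := by
  rcases p with ⟨i, b⟩
  cases b
  · exact rf_false f i
  · exact rf_true f i

theorem rf_idem (x : Fin n) : rf f (rf f x) = rf f x := by
  by_cases h : ∃ i, f (i, true) = x
  · obtain ⟨i, rfl⟩ := h
    rw [rf_true, rf_false]
  · push Not at h
    rw [rf_of f h, rf_of f h]

theorem rf_class (j : Fin 3) (w : Fin n) :
    rf f w = f (j, false) ↔ w ∈ ({f (j, false), f (j, true)} : Finset (Fin n)) := by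
  rw [mem_insert, mem_singleton]
  constructor
  · intro h
    by_cases h1 : ∃ i, f (i, true) = w
    · obtain ⟨i, rfl⟩ := h1
      rw [rf_true] at h
      have h2 := (Prod.mk.inj (f.injective h)).1
      right
      rw [h2]
    · push Not at h1
      rw [rf_of f h1] at h
      exact Or.inl h
  · rintro (rfl | rfl)
    · exact rf_false f j
    · exact rf_true f j

theorem rf_sing {z : Fin n} (hz : ∀ p, f p ≠ z) (w : Fin n) :
    rf f w = z ↔ w ∈ ({z} : Finset (Fin n)) := by
  rw [mem_singleton]
  constructor
  · intro h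
    by_cases h1 : ∃ i, f (i, true) = w
    · obtain ⟨i, rfl⟩ := h1
      rw [rf_true] at h
      exact absurd h (hz _)
    · push Not at h1
      rw [rf_of f h1] at h
      exact h
  · rintro rfl
    exact rf_of f fun i => hz _

theorem rf_ne_true (j : Fin 3) (w : Fin n) : rf f w ≠ f (j, true) := by
  intro h
  by_cases h1 : ∃ i, f (i, true) = w
  · obtain ⟨i, rfl⟩ := h1
    rw [rf_true] at h
    exact absurd (Prod.mk.inj (f.injective h)).2 (by decide)
  · push Not at h1
    rw [rf_of f h1] at h
    exact h1 j h.symm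

theorem defect_rf : defect (rf f) = 3 := by
  classical
  unfold defect
  have h1 : (univ.filter fun x => rf f x ≠ x) = univ.image fun i : Fin 3 => f (i, true) := by
    ext x
    simp only [mem_filter, mem_univ, true_and, mem_image]
    constructor
    · intro h
      by_contra hcon
      push Not at hcon
      exact h (rf_of f hcon)
    · rintro ⟨i, rfl⟩
      rw [rf_true]
      intro h
      exact absurd (Prod.mk.inj (f.injective h)).2 (by decide)
  rw [h1, Finset.card_image_of_injective, Finset.card_univ, Fintype.card_fin]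
  intro i j hij
  exact (Prod.mk.inj (f.injective hij)).1

theorem dg_rf (G : SimpleGraph (Fin n)) (x : Fin n) (j : Fin 3) :
    dg G (rf f) x (f (j, false)) = (ad G x (f (j, false))).toNat + (ad G x (f (j, true))).toNat := by
  rw [dg_sum G {f (j, false), f (j, true)} (rf_class f j), Finset.sum_pair]
  intro h
  exact absurd (Prod.mk.inj (f.injective h)).2 (by decide)

theorem dg_rf_sing (G : SimpleGraph (Fin n)) (x : Fin n) {z : Fin n} (hz : ∀ p, f p ≠ z) :
    dg G (rf f) x z = (ad G x z).toNat := by
  rw [dg_sum G {z} (rf_sing f hz), Finset.sum_singleton]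

theorem dg_rf_true (G : SimpleGraph (Fin n)) (x : Fin n) (j : Fin 3) :
    dg G (rf f) x (f (j, true)) = 0 := by
  unfold dg
  simp [rf_ne_true f j]

end rf

section trip

variable {G : SimpleGraph (Fin n)} {f : Fin 3 × Bool ↪ Fin n}

theorem Trip.val (h : Trip G f) {i j : Fin 3} (hij : i ≠ j) (b c : Bool) :
    ad G (f (i, b)) (f (j, c)) = xor (ad G (f (i, false)) (f (j, false))) (xor b c) := by
  have h1 : ∀ b c, ad G (f (i, !b)) (f (j, c)) = !(ad G (f (i, b)) (f (j, c))) := h.mat i j hij
  have h2 : ∀ b c, ad G (f (i, b)) (f (j, !c)) = !(ad G (f (i, b)) (f (j, c))) := by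
    intro b c
    rw [ad_comm, h.mat j i hij.symm, ad_comm]
  have e1 := h1 false false
  have e2 := h2 false false
  have e3 := h2 true false
  simp only [Bool.not_false] at e1 e2 e3
  cases b <;> cases c
  · simp
  · rw [e2]
    simp
  · rw [e1]
    simp
  · rw [e3, e1]
    simp

theorem one_of_two (a : Bool) : a.toNat + (!a).toNat = 1 := by
  revert a
  decide

theorem Trip.dg_one (h : Trip G f) {i j : Fin 3} (hij : i ≠ j) (b : Bool) :
    dg G (rf f) (f (i, b)) (f (j, false)) = 1 := by
  rw [dg_rf, h.val hij b true, h.val hij b false]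
  have : (xor (ad G (f (i, false)) (f (j, false))) (xor b true)) =
      !(xor (ad G (f (i, false)) (f (j, false))) (xor b false)) := by
    simp
  rw [this]
  exact one_of_two _

/-- The partition of the pattern is equitable. -/
theorem Trip.eqM (h : Trip G f) : EqM G (rf f) := by
  refine ⟨rf_idem f, ?_⟩
  have key : ∀ x z, dg G (rf f) x z = dg G (rf f) (rf f x) z := by
    intro x z
    by_cases hx : ∃ i, f (i, true) = x
    · obtain ⟨i, rfl⟩ := hx
      rw [rf_true]
      by_cases hz : ∃ p, f p = z
      · obtain ⟨⟨j, b⟩, rfl⟩ := hz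
        cases b
        · by_cases hij : i = j
          · subst hij
            rw [dg_rf, dg_rf, ad_self, ad_self, ad_comm G (f (i, true)), Nat.add_comm]
          · rw [h.dg_one hij, h.dg_one hij]
        · rw [dg_rf_true, dg_rf_true]
      · push Not at hz
        rw [dg_rf_sing f G _ hz, dg_rf_sing f G _ hz, h.out i z hz]
    · push Not at hx
      rw [rf_of f hx]
  intro x y hxy z
  have h1 := key x z
  have h2 := key y z
  rw [hxy] at h1
  exact h1.trans h2.symm

/-- Is the pair between the first two pairs of the pattern? -/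
noncomputable def tw (f : Fin 3 × Bool ↪ Fin n) (x y : Fin n) : Bool := by
  classical
  exact decide (∃ b c, (x = f (0, b) ∧ y = f (1, c)) ∨ (x = f (1, b) ∧ y = f (0, c)))

theorem tw_iff {x y : Fin n} : tw f x y = true ↔
    ∃ b c, (x = f (0, b) ∧ y = f (1, c)) ∨ (x = f (1, b) ∧ y = f (0, c)) := by
  simp [tw]

theorem tw_comm (x y : Fin n) : tw f x y = tw f y x := by
  rw [Bool.eq_iff_iff, tw_iff, tw_iff]
  constructor
  · rintro ⟨b, c, h | h⟩
    · exact ⟨c, b, Or.inr ⟨h.2, h.1⟩⟩
    · exact ⟨c, b, Or.inl ⟨h.2, h.1⟩⟩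
  · rintro ⟨b, c, h | h⟩
    · exact ⟨c, b, Or.inr ⟨h.2, h.1⟩⟩
    · exact ⟨c, b, Or.inl ⟨h.2, h.1⟩⟩

theorem tw_self (x : Fin n) : tw f x x = false := by
  rw [← Bool.not_eq_true, tw_iff]
  rintro ⟨b, c, h | h⟩
  · have := f.injective (h.1.symm.trans h.2)
    exact absurd (Prod.mk.inj this).1 (by decide)
  · have := f.injective (h.1.symm.trans h.2)
    exact absurd (Prod.mk.inj this).1 (by decide)

/-- The twisted graph. -/
noncomputable def twist (G : SimpleGraph (Fin n)) (f : Fin 3 × Bool ↪ Fin n) :
    SimpleGraph (Fin n) where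
  Adj x y := xor (ad G x y) (tw f x y) = true
  symm := ⟨by
    intro x y h
    rw [ad_comm, tw_comm]
    exact h⟩
  loopless := ⟨by
    intro x h
    rw [ad_self, tw_self] at h
    exact absurd h (by decide)⟩

theorem ad_twist (x y : Fin n) : ad (twist G f) x y = xor (ad G x y) (tw f x y) := by
  rw [Bool.eq_iff_iff, ad_iff]
  exact Iff.rfl

theorem tw_apply (i j : Fin 3) (b c : Bool) :
    tw f (f (i, b)) (f (j, c)) = decide ((i = 0 ∧ j = 1) ∨ (i = 1 ∧ j = 0)) := by
  rw [Bool.eq_iff_iff, tw_iff, decide_eq_true_iff]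
  constructor
  · rintro ⟨b', c', h | h⟩
    · left
      exact ⟨(Prod.mk.inj (f.injective h.1)).1, (Prod.mk.inj (f.injective h.2)).1⟩
    · right
      exact ⟨(Prod.mk.inj (f.injective h.1)).1, (Prod.mk.inj (f.injective h.2)).1⟩
  · rintro (⟨rfl, rfl⟩ | ⟨rfl, rfl⟩)
    · exact ⟨b, c, Or.inl ⟨rfl, rfl⟩⟩
    · exact ⟨b, c, Or.inr ⟨rfl, rfl⟩⟩

theorem tw_out_right {x z : Fin n} (hz : ∀ p, f p ≠ z) : tw f x z = false := by
  rw [← Bool.not_eq_true, tw_iff]
  rintro ⟨b, c, h | h⟩
  · exact hz _ h.2.symm
  · exact hz _ h.2.symm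

theorem tw_out_left {x z : Fin n} (hz : ∀ p, f p ≠ z) : tw f z x = false := by
  rw [tw_comm, tw_out_right hz]

theorem Trip.same (h : Trip G f) : Same G (twist G f) (rf f) := by
  have key : ∀ x z, dg G (rf f) x z = dg (twist G f) (rf f) x z := by
    intro x z
    by_cases hz : ∃ p, f p = z
    · obtain ⟨⟨j, b⟩, rfl⟩ := hz
      cases b
      · rw [dg_rf, dg_rf, ad_twist, ad_twist]
        by_cases hx : ∃ p, f p = x
        · obtain ⟨⟨i, b⟩, rfl⟩ := hx
          rw [tw_apply, tw_apply]
          by_cases hij : (i = 0 ∧ j = 1) ∨ (i = 1 ∧ j = 0)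
          · have hne : i ≠ j := by
              rintro rfl
              revert hij
              revert i
              decide
            have h1 := h.dg_one hne b
            rw [dg_rf] at h1
            rw [h1, decide_eq_true hij]
            revert h1
            generalize ad G (f (i, b)) (f (j, false)) = p
            generalize ad G (f (i, b)) (f (j, true)) = q
            revert p q
            decide
          · rw [decide_eq_false hij, Bool.xor_false, Bool.xor_false]
        · push Not at hx
          rw [tw_out_left hx, tw_out_left hx, Bool.xor_false, Bool.xor_false]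
      · rw [dg_rf_true, dg_rf_true]
    · push Not at hz
      rw [dg_rf_sing f _ _ hz, dg_rf_sing f _ _ hz, ad_twist, tw_out_right hz, Bool.xor_false]
  refine ⟨fun x y hxy z => ?_⟩
  have h1 : dg G (rf f) x z = dg G (rf f) y z := h.eqM.eq x y hxy z
  rw [h1, key]

/-- **The bad pattern prevents that colour refinement identifies the graph**, if there is no
equitable partition of larger defect. -/
theorem Trip.not_identified (h : Trip G f) (hG : ∀ ρ, EqM G ρ → defect ρ ≤ 3) :
    ¬ CRIdentified G := by
  intro hid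
  obtain ⟨φ⟩ := hid _ _ h.same.crEquivalent
  obtain ⟨ρ, hρ⟩ := exists_coarsestM G
  have hfin : ∀ x y, ρ x = ρ y ↔ rf f x = rf f y := by
    refine eq_of_defect_le hρ.eqM.idem h.eqM.idem (hρ.le _ h.eqM) ?_
    rw [defect_rf]
    exact hG ρ hρ.eqM
  have hφ : ∀ x, rf f (φ x) = rf f x := by
    intro x
    rw [← hfin]
    refine hρ.of_cr fun t => ?_
    rw [cr_iso φ t x]
    exact h.same.cr_eq t (φ x) (φ x) rfl
  have hφf : ∀ i b, ∃ c, φ (f (i, b)) = f (i, c) := by
    intro i b
    have h1 := hφ (f (i, b))
    rw [rf_apply] at h1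
    have h2 := (rf_class f i _).1 h1
    rw [mem_insert, mem_singleton] at h2
    rcases h2 with h2 | h2
    · exact ⟨false, h2⟩
    · exact ⟨true, h2⟩
  choose s hs using fun i => hφf i false
  have h1 : ∀ i j, i ≠ j → xor (s i) (s j) = decide ((i = 0 ∧ j = 1) ∨ (i = 1 ∧ j = 0)) := by
    intro i j hij
    have h2 : ad (twist G f) (φ (f (i, false))) (φ (f (j, false))) =
        ad G (f (i, false)) (f (j, false)) := by
      rw [Bool.eq_iff_iff, ad_iff, ad_iff]
      exact φ.map_adj_iff
    rw [hs, hs, ad_twist, tw_apply, h.val hij] at h2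
    revert h2
    generalize decide ((i = 0 ∧ j = 1) ∨ (i = 1 ∧ j = 0)) = p
    generalize ad G (f (i, false)) (f (j, false)) = q
    generalize s i = r
    generalize s j = t
    revert p q r t
    decide
  have e1 := h1 0 1 (by decide)
  have e2 := h1 0 2 (by decide)
  have e3 := h1 1 2 (by decide)
  revert e1 e2 e3
  generalize s 0 = p
  generalize s 1 = q
  generalize s 2 = r
  revert p q r
  decide

/-- If there is no equitable partition of defect larger than three, colour refinement fails if
and only if there is the bad pattern. -/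
theorem not_identified_iff (hn : 7 ≤ n) (hG : ∀ ρ, EqM G ρ → defect ρ ≤ 3) :
    ¬ CRIdentified G ↔ ∃ f, Trip G f := by
  constructor
  · intro h
    unfold CRIdentified at h
    push Not at h
    obtain ⟨W, _, H, h1, h2⟩ := h
    obtain ⟨ρ, hρ⟩ := exists_coarsestM G
    obtain ⟨H', ⟨ψ⟩, hs⟩ := hρ.transport h1
    rcases classify hn hs hρ.eqM.idem (hG ρ hρ.eqM) with ⟨⟨φ⟩⟩ | h3
    · exact (h2.false (φ.trans ψ)).elim
    · exact h3
  · rintro ⟨f, hf⟩
    exact hf.not_identified hG

end trip

/-! ## The number of patterns in one graph -/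

theorem xor_cancel : ∀ b c t : Bool, xor b t = xor c t → b = c := by
  decide

/-- Renumbering a pattern. -/
def renum (f : Fin 3 × Bool ↪ Fin n) (π : Equiv.Perm (Fin 3)) (s : Fin 3 → Bool) :
    Fin 3 × Bool ↪ Fin n where
  toFun p := f (π p.1, xor p.2 (s p.1))
  inj' := by
    rintro ⟨i, b⟩ ⟨j, c⟩ h
    have h1 := Prod.mk.inj (f.injective h)
    have h2 : i = j := π.injective h1.1
    subst h2
    exact Prod.ext rfl (xor_cancel _ _ _ h1.2)

theorem renum_apply (f : Fin 3 × Bool ↪ Fin n) (π : Equiv.Perm (Fin 3)) (s : Fin 3 → Bool)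
    (i : Fin 3) (b : Bool) : renum f π s (i, b) = f (π i, xor b (s i)) := rfl

theorem Trip.renum {G : SimpleGraph (Fin n)} {f : Fin 3 × Bool ↪ Fin n} (h : Trip G f)
    (π : Equiv.Perm (Fin 3)) (s : Fin 3 → Bool) : Trip G (renum f π s) := by
  constructor
  · intro i w hw
    have hw' : ∀ p, f p ≠ w := by
      rintro ⟨j, c⟩ hj
      refine hw (π.symm j, xor c (s (π.symm j))) ?_
      rw [renum_apply, ← hj]
      congr 1
      refine Prod.ext (π.apply_symm_apply j) ?_
      show xor (xor c (s (π.symm j))) (s (π.symm j)) = c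
      rw [Bool.xor_assoc, Bool.xor_self, Bool.xor_false]
    rw [renum_apply, renum_apply]
    have h1 := h.out (π i) w hw'
    cases s i
    · exact h1
    · exact h1.symm
  · intro i j hij b c
    rw [renum_apply, renum_apply, renum_apply]
    have h1 : (xor (!b) (s i)) = !(xor b (s i)) := by simp
    rw [h1]
    exact h.mat (π i) (π j) (fun h2 => hij (π.injective h2)) _ _

theorem card_trip {G : SimpleGraph (Fin n)} (hG : ∀ ρ, EqM G ρ → defect ρ ≤ 3)
    {f : Fin 3 × Bool ↪ Fin n} (h : Trip G f) : Nat.card {f' // Trip G f'} = 48 := by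
  classical
  have hcl : ∀ f', Trip G f' → ∀ x y, rf f x = rf f y ↔ rf f' x = rf f' y := by
    intro f' h'
    obtain ⟨ρ, hρ⟩ := exists_coarsestM G
    have e1 : ∀ x y, ρ x = ρ y ↔ rf f x = rf f y := by
      refine eq_of_defect_le hρ.eqM.idem h.eqM.idem (hρ.le _ h.eqM) ?_
      rw [defect_rf]
      exact hG ρ hρ.eqM
    have e2 : ∀ x y, ρ x = ρ y ↔ rf f' x = rf f' y := by
      refine eq_of_defect_le hρ.eqM.idem h'.eqM.idem (hρ.le _ h'.eqM) ?_
      rw [defect_rf]
      exact hG ρ hρ.eqM
    intro x y
    rw [← e1, e2]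
  let Φ : Equiv.Perm (Fin 3) × (Fin 3 → Bool) → {f' // Trip G f'} := fun p =>
    ⟨renum f p.1 p.2, h.renum p.1 p.2⟩
  have hΦ : Function.Bijective Φ := by
    constructor
    · rintro ⟨π, s⟩ ⟨π', s'⟩ hp
      have h1 : renum f π s = renum f π' s' := congrArg Subtype.val hp
      have h2 : ∀ i, (π i, s i) = (π' i, s' i) := by
        intro i
        have h3 : renum f π s (i, false) = renum f π' s' (i, false) := by rw [h1]
        rw [renum_apply, renum_apply, Bool.false_xor, Bool.false_xor] at h3
        exact f.injective h3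
      refine Prod.ext ?_ ?_
      · exact Equiv.ext fun i => (Prod.mk.inj (h2 i)).1
      · exact funext fun i => (Prod.mk.inj (h2 i)).2
    · rintro ⟨f', h'⟩
      have h1 : ∀ i, ∃ j c, f' (i, false) = f (j, c) ∧ f' (i, true) = f (j, !c) := by
        intro i
        have h2 : rf f (f' (i, true)) = rf f (f' (i, false)) := by
          rw [hcl f' h', rf_apply, rf_apply]
        have hne : f' (i, true) ≠ f' (i, false) := by
          intro h3
          exact absurd (Prod.mk.inj (f'.injective h3)).2 (by decide)
        have h4 : ∃ p, f p = f' (i, false) := by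
          by_contra hcon
          push Not at hcon
          have h5 := (rf_sing f hcon (f' (i, false))).2 (by simp)
          rw [h5] at h2
          have h6 := (rf_sing f hcon _).1 h2
          rw [mem_singleton] at h6
          exact hne h6
        obtain ⟨⟨j, c⟩, hj⟩ := h4
        refine ⟨j, c, hj.symm, ?_⟩
        rw [← hj, rf_apply] at h2
        have h5 := (rf_class f j _).1 h2
        rw [mem_insert, mem_singleton] at h5
        rw [← hj] at hne
        cases c
        · rcases h5 with h5 | h5
          · exact absurd h5 hne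
          · exact h5
        · rcases h5 with h5 | h5
          · exact h5
          · exact absurd h5 hne
      choose π0 s hπ1 hπ2 using h1
      have hπ0 : Function.Injective π0 := by
        intro i j hij
        have h3 : rf f (f' (i, false)) = rf f (f' (j, false)) := by
          rw [hπ1, hπ1, rf_apply, rf_apply, hij]
        rw [hcl f' h', rf_apply, rf_apply] at h3
        exact (Prod.mk.inj (f'.injective h3)).1
      let π : Equiv.Perm (Fin 3) := Equiv.ofBijective π0 (Finite.injective_iff_bijective.1 hπ0)
      refine ⟨(π, s), Subtype.ext ?_⟩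
      refine Function.Embedding.ext ?_
      rintro ⟨i, b⟩
      show renum f π s (i, b) = f' (i, b)
      rw [renum_apply]
      cases b
      · rw [Bool.false_xor]
        exact (hπ1 i).symm
      · rw [Bool.true_xor]
        exact (hπ2 i).symm
  rw [← Nat.card_congr (Equiv.ofBijective Φ hΦ), Nat.card_eq_fintype_card, Fintype.card_prod,
    Fintype.card_perm, Fintype.card_fun, Fintype.card_fin, Fintype.card_bool]
  rfl

end Pool.Agent.N579.CR
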